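import Pool.Agent.MP_ad1a12_co.Defs
import Mathlib

-- part MP_ad1a12_co.Real1
section

namespace Pool.Agent.MP_ad1a12_co

open Filter Topology

variable {R : Set (Fin 3 → ℝ)} {d : Fin 3 → ℝ}

lemma IsAffineTits.neg (h : IsAffineTits R d) {r : Fin 3 → ℝ} (hr : r ∈ R) : -r ∈ R := by
  simpa using (h.reduced r hr (-1)).2 (Or.inr rfl)

lemma IsAffineTits.nz (h : IsAffineTits R d) {r : Fin 3 → ℝ} (hr : r ∈ R) : r ≠ 0 := by
  rintro rfl
  have := (h.reduced 0 hr 2).1 (by simpa using hr)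
  norm_num at this

lemma dual_ex {v : Fin 3 → Fin 3 → ℝ} (hv : LinearIndependent ℝ v) :
    ∃ f : Fin 3 → Fin 3 → ℝ, (∀ i j, f i ⬝ᵥ v j = if i = j then 1 else 0) ∧
      (∀ y, y = ∑ j, (f j ⬝ᵥ y) • v j) ∧ (∀ g, g = ∑ j, (g ⬝ᵥ v j) • f j) := by
  let M : Matrix (Fin 3) (Fin 3) ℝ := Matrix.of v
  have hu : IsUnit M := Matrix.linearIndependent_rows_iff_isUnit.1 hv
  have hd := (Matrix.isUnit_iff_isUnit_det M).1 hu
  have h1 := Matrix.mul_nonsing_inv M hd
  have h2 := Matrix.nonsing_inv_mul M hd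
  generalize M⁻¹ = N at h1 h2
  have e1 : ∀ i j, ∑ k, v i k * N k j = if i = j then 1 else 0 := by
    intro i j
    have := congrFun (congrFun h1 i) j
    simpa [Matrix.mul_apply, Matrix.one_apply, M] using this
  have e2 : ∀ i j, ∑ k, N i k * v k j = if i = j then 1 else 0 := by
    intro i j
    have := congrFun (congrFun h2 i) j
    simpa [Matrix.mul_apply, Matrix.one_apply, M] using this
  refine ⟨fun i k => N k i, ?_, ?_, ?_⟩
  · intro i j
    have := e1 j i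
    simp only [dotProduct, eq_comm (a := i)]
    rw [← this]
    exact Finset.sum_congr rfl fun k _ => mul_comm _ _
  · intro y
    ext l
    have a0 := e2 0 l
    have a1 := e2 1 l
    have a2 := e2 2 l
    simp only [Fin.sum_univ_three, dotProduct, Pi.add_apply, Pi.smul_apply, smul_eq_mul] at *
    fin_cases l <;> simp at a0 a1 a2 ⊢ <;>
      linear_combination (-y 0) * a0 - y 1 * a1 - y 2 * a2
  · intro g
    ext l
    have a0 := e2 l 0
    have a1 := e2 l 1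
    have a2 := e2 l 2
    simp only [Fin.sum_univ_three, dotProduct, Pi.add_apply, Pi.smul_apply, smul_eq_mul] at *
    fin_cases l <;> simp at a0 a1 a2 ⊢ <;>
      linear_combination (-g 0) * a0 - g 1 * a1 - g 2 * a2

section cone
variable {v f : Fin 3 → Fin 3 → ℝ} {K : Set (Fin 3 → ℝ)}

lemma cont_dot (g : Fin 3 → ℝ) : Continuous fun x : Fin 3 → ℝ => g ⬝ᵥ x := by
  unfold dotProduct; fun_prop

lemma clos_nonneg {g : Fin 3 → ℝ} (hg : ∀ x ∈ K, 0 < g ⬝ᵥ x) :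
    ∀ x ∈ closure K, 0 ≤ g ⬝ᵥ x := by
  have : closure K ⊆ {x | 0 ≤ g ⬝ᵥ x} :=
    closure_minimal (fun x hx => (hg x hx).le) (isClosed_le continuous_const (cont_dot g))
  exact fun x hx => this hx

lemma dot_sum (hf : ∀ i j, f i ⬝ᵥ v j = if i = j then 1 else 0) (t : Fin 3 → ℝ) (i : Fin 3) :
    f i ⬝ᵥ ∑ j, t j • v j = t i := by
  simp [dotProduct_sum, dotProduct_smul, hf]

lemma v_clos (hK : K = {x | ∃ t : Fin 3 → ℝ, (∀ i, 0 < t i) ∧ x = ∑ i, t i • v i}) (j : Fin 3) :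
    v j ∈ closure K := by
  have ht : Tendsto (fun e : ℝ => v j + e • ∑ i, v i) (𝓝[>] 0) (𝓝 (v j)) := by
    have : Continuous (fun e : ℝ => v j + e • ∑ i, v i) := by fun_prop
    have h2 := this.tendsto 0
    simp only [zero_smul, add_zero] at h2
    exact h2.mono_left nhdsWithin_le_nhds
  refine mem_closure_of_tendsto ht ?_
  filter_upwards [self_mem_nhdsWithin] with e he
  rw [hK]
  refine ⟨fun i => (if i = j then 1 else 0) + e, fun i => ?_, ?_⟩
  · have : (0 : ℝ) < e := he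
    dsimp only
    split_ifs <;> linarith
  · simp [add_smul, Finset.sum_add_distrib, Finset.smul_sum]

lemma wall_of (hK : K = {x | ∃ t : Fin 3 → ℝ, (∀ i, 0 < t i) ∧ x = ∑ i, t i • v i})
    (hf : ∀ i j, f i ⬝ᵥ v j = if i = j then 1 else 0) (hy : ∀ y, y = ∑ j, (f j ⬝ᵥ y) • v j)
    (i : Fin 3) {c : ℝ} (hc : 0 < c) :
    IsWall K (c • f i) ∧ ∀ x ∈ K, 0 < (c • f i) ⬝ᵥ x := by
  have pos : ∀ x ∈ K, 0 < (c • f i) ⬝ᵥ x := by
    intro x hx
    rw [hK] at hx
    obtain ⟨t, ht, rfl⟩ := hx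
    rw [smul_dotProduct, dot_sum hf]
    exact mul_pos hc (ht i)
  refine ⟨⟨?_, fun x hx => (pos x hx).ne', ?_⟩, pos⟩
  · intro e
    have := congrArg (· ⬝ᵥ v i) e
    simp [hf] at this
    exact hc.ne' this
  · apply Set.Subset.antisymm
    · intro x hx
      induction hx using Submodule.span_induction with
      | mem x hx => exact hx.1
      | zero => simp
      | add x y _ _ h1 h2 =>
        simp only [Set.mem_setOf_eq] at *
        rw [dotProduct_add, h1, h2, add_zero]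
      | smul a x _ h1 =>
        simp only [Set.mem_setOf_eq] at *
        rw [dotProduct_smul, h1, smul_zero]
    · intro x hx
      simp only [Set.mem_setOf_eq, smul_dotProduct, smul_eq_mul] at hx
      have hx' := (mul_eq_zero.1 hx).resolve_left hc.ne'
      rw [hy x]
      refine Submodule.sum_mem _ fun j _ => ?_
      by_cases e : j = i
      · rw [e, hx', zero_smul]; exact Submodule.zero_mem _
      · refine Submodule.smul_mem _ _ (Submodule.subset_span ⟨?_, v_clos hK j⟩)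
        simp [hf, Ne.symm e]

lemma wall_eq (hK : K = {x | ∃ t : Fin 3 → ℝ, (∀ i, 0 < t i) ∧ x = ∑ i, t i • v i})
    (hf : ∀ i j, f i ⬝ᵥ v j = if i = j then 1 else 0) (hy : ∀ y, y = ∑ j, (f j ⬝ᵥ y) • v j)
    (hg : ∀ g, g = ∑ j, (g ⬝ᵥ v j) • f j) {r : Fin 3 → ℝ} (hw : IsWall K r)
    (hp : ∀ x ∈ K, 0 < r ⬝ᵥ x) : ∃ i, ∃ c : ℝ, 0 < c ∧ r = c • f i := by
  have g0 : ∀ j, 0 ≤ r ⬝ᵥ v j := fun j => clos_nonneg hp _ (v_clos hK j)
  have f0 : ∀ j, ∀ x ∈ closure K, 0 ≤ f j ⬝ᵥ x := fun j =>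
    clos_nonneg (by simpa using (wall_of hK hf hy j one_pos).2)
  have key : ∀ j, 0 < r ⬝ᵥ v j → ∀ x, r ⬝ᵥ x = 0 → f j ⬝ᵥ x = 0 := by
    intro j hj x hx
    have hx' : x ∈ (Submodule.span ℝ ({x | r ⬝ᵥ x = 0} ∩ closure K) : Set (Fin 3 → ℝ)) := by
      rw [hw.2.2]; exact hx
    clear hx
    induction hx' using Submodule.span_induction with
    | mem x hx =>
      have e : r ⬝ᵥ x = ∑ k, (f k ⬝ᵥ x) * (r ⬝ᵥ v k) := by
        conv_lhs => rw [hy x]
        simp [dotProduct_sum, dotProduct_smul]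
      rw [hx.1] at e
      have := (Finset.sum_eq_zero_iff_of_nonneg
        (fun k _ => mul_nonneg (f0 k x hx.2) (g0 k))).1 e.symm j (Finset.mem_univ _)
      exact (mul_eq_zero.1 this).resolve_right hj.ne'
    | zero => simp
    | add x y _ _ h1 h2 => rw [dotProduct_add, h1, h2, add_zero]
    | smul a x _ h1 => rw [dotProduct_smul, h1, smul_zero]
  obtain ⟨i, hi⟩ : ∃ i, 0 < r ⬝ᵥ v i := by
    by_contra hc
    push_neg at hc
    apply hw.1
    rw [hg r]
    exact Finset.sum_eq_zero fun j _ => by rw [le_antisymm (hc j) (g0 j), zero_smul]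
  refine ⟨i, _, hi, ?_⟩
  conv_lhs => rw [hg r]
  refine Finset.sum_eq_single i (fun j _ hj => ?_) (by simp)
  have := key i hi ((r ⬝ᵥ v j) • v i - (r ⬝ᵥ v i) • v j) (by
    rw [dotProduct_sub, dotProduct_smul, dotProduct_smul]; simp [mul_comm])
  rw [dotProduct_sub, dotProduct_smul, dotProduct_smul, hf, hf] at this
  simp [Ne.symm hj] at this
  rw [this, zero_smul]

end cone

/-- working form of the hypotheses at a chamber -/
structure WF (R : Set (Fin 3 → ℝ)) (d : Fin 3 → ℝ) (a w : Fin 3 → Fin 3 → ℝ) : Prop where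
  mem : ∀ i, a i ∈ R
  dual : ∀ i j, a i ⬝ᵥ w j = if i = j then 1 else 0
  gen : ∀ r ∈ R, ∃ n : Fin 3 → ℤ, r = ∑ i, (n i : ℝ) • a i ∧ ((∀ i, 0 ≤ n i) ∨ (∀ i, n i ≤ 0))
  cone : ∃ l : Fin 3 → ℝ, (∀ i, 0 ≤ l i) ∧ d = ∑ i, l i • a i
  irr : ∀ i, ∃ j, j ≠ i ∧ ∃ m n : ℤ, m ≠ 0 ∧ n ≠ 0 ∧ (m : ℝ) • a i + (n : ℝ) • a j ∈ R

lemma wf_ex (h : IsAffineTits R d) (hi : IsIrred R d) (hc : IsCryst R d) {x : Fin 3 → ℝ}
    (hx : x ∈ Reg R d) : ∃ a w, WF R d a w ∧ ∀ i, 0 < a i ⬝ᵥ x := by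
  have hK : IsChamber R d (connectedComponentIn (Reg R d) x) := ⟨x, hx, rfl⟩
  have xK : x ∈ connectedComponentIn (Reg R d) x := mem_connectedComponentIn hx
  have sub : connectedComponentIn (Reg R d) x ⊆ Reg R d := connectedComponentIn_subset _ _
  generalize connectedComponentIn (Reg R d) x = K at hK xK sub
  obtain ⟨v, hv, eK⟩ := h.simplicial K hK
  obtain ⟨f, hf, hy, hg⟩ := dual_ex hv
  have ex : ∀ i, ∃ c : ℝ, 0 < c ∧ c • f i ∈ R := by
    intro i
    obtain ⟨c, hc⟩ := h.thin K hK (f i) (by simpa using (wall_of eK hf hy i one_pos).1)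
    rcases lt_trichotomy c 0 with l | l | l
    · exact ⟨-c, by linarith, by simpa using h.neg hc⟩
    · exact absurd (by rw [l, zero_smul]) (h.nz hc)
    · exact ⟨c, l, hc⟩
  choose c c0 cR using ex
  have aB : ∀ i, c i • f i ∈ Base R K := fun i =>
    ⟨cR i, (wall_of eK hf hy i (c0 i)).1, (wall_of eK hf hy i (c0 i)).2⟩
  have Ba : ∀ r ∈ Base R K, ∃ i, r = c i • f i := by
    intro r hr
    obtain ⟨i, t, t0, e⟩ := wall_eq eK hf hy hg hr.2.1 hr.2.2
    refine ⟨i, ?_⟩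
    have e2 : r = (t / c i) • (c i • f i) := by
      rw [smul_smul, div_mul_cancel₀ _ (c0 i).ne', e]
    have := (h.reduced _ (cR i) (t / c i)).1 (by rw [← e2]; exact hr.1)
    have p := div_pos t0 (c0 i)
    rcases this with o | o
    · rw [e2, o, one_smul]
    · linarith
  have du : ∀ i j, (c i • f i) ⬝ᵥ ((c j)⁻¹ • v j) = if i = j then 1 else 0 := by
    intro i j
    rw [smul_dotProduct, dotProduct_smul, hf]
    split_ifs with e
    · rw [e]; simp [(c0 j).ne']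
    · simp
  have cl : ∀ r ∈ AddSubmonoid.closure (Base R K), ∃ n : Fin 3 → ℤ,
      r = ∑ i, (n i : ℝ) • (c i • f i) ∧ ∀ i, 0 ≤ n i := by
    intro r hr
    induction hr using AddSubmonoid.closure_induction with
    | mem r hr =>
      obtain ⟨i, rfl⟩ := Ba r hr
      refine ⟨fun j => if j = i then 1 else 0, by simp, fun j => by dsimp only; split_ifs <;> simp⟩
    | zero => exact ⟨0, by simp, fun _ => le_rfl⟩
    | add x y _ _ h1 h2 =>
      obtain ⟨n, e, p⟩ := h1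
      obtain ⟨m, e', p'⟩ := h2
      refine ⟨n + m, ?_, fun i => add_nonneg (p i) (p' i)⟩
      rw [e, e', ← Finset.sum_add_distrib]
      exact Finset.sum_congr rfl fun i _ => by simp [add_smul]
  have gen : ∀ r ∈ R, ∃ n : Fin 3 → ℤ, r = ∑ i, (n i : ℝ) • (c i • f i) ∧
      ((∀ i, 0 ≤ n i) ∨ (∀ i, n i ≤ 0)) := by
    intro r hr
    rcases hc K hK r hr with o | o
    · obtain ⟨n, e, p⟩ := cl r o
      exact ⟨n, e, Or.inl p⟩
    · obtain ⟨n, e, p⟩ := cl _ o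
      refine ⟨-n, ?_, Or.inr fun i => by simpa using p i⟩
      rw [neg_eq_iff_eq_neg.1 e, ← Finset.sum_neg_distrib]
      exact Finset.sum_congr rfl fun i _ => by simp
  refine ⟨fun i => c i • f i, fun j => (c j)⁻¹ • v j, ⟨cR, du, gen, ?_, ?_⟩,
    fun i => (aB i).2.2 x xK⟩
  · refine ⟨fun j => (d ⬝ᵥ v j) / c j, fun j => div_nonneg
      (clos_nonneg (fun x hx => (sub hx).1) _ (v_clos eK j)) (c0 j).le, ?_⟩
    conv_lhs => rw [hg d]
    exact Finset.sum_congr rfl fun j _ => by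
      rw [smul_smul, div_mul_cancel₀ _ (c0 j).ne']
  · intro i
    have inj : ∀ i j, c i • f i = c j • f j → i = j := by
      intro i j e
      have h1 := du i i
      rw [e, du j i] at h1
      by_contra hne
      simp [Ne.symm hne] at h1
    obtain ⟨j0, hj0⟩ : ∃ j : Fin 3, j ≠ i := exists_ne i
    have rt := hi K hK _ (aB i) _ (aB j0)
    rcases rt.cases_head with e | ⟨s, hs, -⟩
    · exact absurd (inj _ _ e).symm hj0
    obtain ⟨-, sB, ne, u, hu, u1, u2, u3, u4, hv0⟩ := hs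
    obtain ⟨j, rfl⟩ := Ba s sB
    have ji : j ≠ i := fun e => ne (by rw [e])
    obtain ⟨n, e, -⟩ := gen u hu
    have co : ∀ k, u ⬝ᵥ ((c k)⁻¹ • v k) = n k := by
      intro k
      rw [e]
      simp only [sum_dotProduct, smul_dotProduct (n _ : ℝ), du]
      simp
    have e2 : u = (n i : ℝ) • (c i • f i) + (n j : ℝ) • (c j • f j) := by
      rw [e]
      refine Finset.sum_eq_add_of_mem i j (Finset.mem_univ _) (Finset.mem_univ _) ji.symm ?_
      intro k _ hk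
      have := hv0 ((c k)⁻¹ • v k) (by rw [du]; simp [Ne.symm hk.1]) (by rw [du]; simp [Ne.symm hk.2])
      rw [co] at this
      rw [this, zero_smul]
    refine ⟨j, ji, n i, n j, ?_, ?_, by rw [← e2]; exact hu⟩
    · intro z
      rw [z] at e2
      simp only [Int.cast_zero, zero_smul, zero_add] at e2
      rcases (h.reduced _ (cR j) (n j)).1 (by rw [← e2]; exact hu) with o | o
      · exact u3 (by rw [e2, o, one_smul])
      · exact u4 (by rw [e2, o, neg_smul, one_smul])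
    · intro z
      rw [z] at e2
      simp only [Int.cast_zero, zero_smul, add_zero] at e2
      rcases (h.reduced _ (cR i) (n i)).1 (by rw [← e2]; exact hu) with o | o
      · exact u1 (by rw [e2, o, one_smul])
      · exact u2 (by rw [e2, o, neg_smul, one_smul])

lemma lex_ev {A B C : ℝ} (h : ¬ (A = 0 ∧ B = 0 ∧ C = 0)) :
    ∀ᶠ e : ℝ in 𝓝[>] 0, A + e * B + e * e * C ≠ 0 ∧ (0 < A + e * B + e * e * C →
      0 < A ∨ (A = 0 ∧ (0 < B ∨ (B = 0 ∧ 0 < C)))) := by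
  have t1 : Tendsto (fun e : ℝ => A + e * B + e * e * C) (𝓝[>] 0) (𝓝 A) := by
    have : Continuous (fun e : ℝ => A + e * B + e * e * C) := by fun_prop
    have h2 := this.tendsto 0
    simp only [zero_mul, add_zero] at h2
    exact h2.mono_left nhdsWithin_le_nhds
  have t2 : Tendsto (fun e : ℝ => B + e * C) (𝓝[>] 0) (𝓝 B) := by
    have : Continuous (fun e : ℝ => B + e * C) := by fun_prop
    have h2 := this.tendsto 0
    simp only [zero_mul, add_zero] at h2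
    exact h2.mono_left nhdsWithin_le_nhds
  rcases lt_trichotomy A 0 with a | a | a
  · filter_upwards [t1.eventually (gt_mem_nhds a)] with e he
    exact ⟨he.ne, fun h => absurd h he.le.not_gt⟩
  · subst a
    rcases lt_trichotomy B 0 with b | b | b
    · filter_upwards [t2.eventually (gt_mem_nhds b), self_mem_nhdsWithin] with e he h0
      have : 0 + e * B + e * e * C < 0 := by
        have h0' : (0 : ℝ) < e := h0
        nlinarith
      exact ⟨this.ne, fun h => absurd h this.le.not_gt⟩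
    · subst b
      filter_upwards [self_mem_nhdsWithin] with e h0
      have h0' : (0 : ℝ) < e := h0
      have hC : C ≠ 0 := fun c => h ⟨rfl, rfl, c⟩
      refine ⟨by simp [h0'.ne', hC], fun h1 => Or.inr ⟨rfl, Or.inr ⟨rfl, ?_⟩⟩⟩
      simp only [mul_zero, add_zero, zero_add] at h1
      exact (mul_pos_iff_of_pos_left (mul_pos h0' h0')).1 h1
    · filter_upwards [t2.eventually (lt_mem_nhds b), self_mem_nhdsWithin] with e he h0
      have : 0 < 0 + e * B + e * e * C := by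
        have h0' : (0 : ℝ) < e := h0
        nlinarith
      exact ⟨this.ne', fun _ => Or.inr ⟨rfl, Or.inl b⟩⟩
  · filter_upwards [t1.eventually (lt_mem_nhds a)] with e he
    exact ⟨he.ne', fun _ => Or.inl a⟩

lemma lex_pt (h : IsAffineTits R d) {y1 y2 y3 : Fin 3 → ℝ} (hy : 0 < d ⬝ᵥ y1)
    (nd : ∀ r ∈ R, ¬ (r ⬝ᵥ y1 = 0 ∧ r ⬝ᵥ y2 = 0 ∧ r ⬝ᵥ y3 = 0)) :
    ∃ x ∈ Reg R d, ∀ r ∈ R, 0 < r ⬝ᵥ x →
      0 < r ⬝ᵥ y1 ∨ (r ⬝ᵥ y1 = 0 ∧ (0 < r ⬝ᵥ y2 ∨ (r ⬝ᵥ y2 = 0 ∧ 0 < r ⬝ᵥ y3))) := by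
  obtain ⟨U, hU, hF⟩ := h.locFin y1 hy
  obtain ⟨t, t0, hb⟩ := Metric.mem_nhds_iff.1 hU
  have tx : Tendsto (fun e : ℝ => y1 + e • y2 + (e * e) • y3) (𝓝[>] 0) (𝓝 y1) := by
    have : Continuous (fun e : ℝ => y1 + e • y2 + (e * e) • y3) := by fun_prop
    have h2 := this.tendsto 0
    simp only [zero_mul, zero_smul, add_zero] at h2
    exact h2.mono_left nhdsWithin_le_nhds
  have e1 := tx.eventually (Metric.ball_mem_nhds y1 t0)
  have e2 := (((cont_dot d).tendsto y1).comp tx).eventually (lt_mem_nhds hy)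
  have e3 := (eventually_all_finite hF).2 (fun r hr => lex_ev (nd r hr.1))
  obtain ⟨e, h1, h2, h3⟩ := (e1.and (e2.and e3)).exists
  have ed : ∀ r : Fin 3 → ℝ, r ⬝ᵥ (y1 + e • y2 + (e * e) • y3) =
      r ⬝ᵥ y1 + e * r ⬝ᵥ y2 + e * e * r ⬝ᵥ y3 := by
    intro r; simp [dotProduct_add, dotProduct_smul]
  refine ⟨y1 + e • y2 + (e * e) • y3, ⟨h2, fun r hr => ?_⟩, fun r hr hp => ?_⟩
  · by_cases hm : r ∈ {r | r ∈ R ∧ ∃ y ∈ U, r ⬝ᵥ y = 0}
    · rw [ed]; exact (h3 r hm).1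
    · intro z; exact hm ⟨hr, _, hb h1, z⟩
  · by_cases hm : r ∈ {r | r ∈ R ∧ ∃ y ∈ U, r ⬝ᵥ y = 0}
    · rw [ed] at hp; exact (h3 r hm).2 hp
    · left
      by_contra hn
      push_neg at hn
      obtain ⟨p, hp1, hp2⟩ := (convex_ball y1 t).isPreconnected.intermediate_value
        (Metric.mem_ball_self t0) h1 (cont_dot r).continuousOn ⟨hn, hp.le⟩
      exact hm ⟨hr, p, hb hp1, hp2⟩

end Pool.Agent.MP_ad1a12_co

end

-- part MP_ad1a12_co.Planar1
section

namespace Pool.Agent.MP_ad1a12_co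

/-- planar determinant -/
def D (u v : ℤ × ℤ) : ℤ := u.1 * v.2 - u.2 * v.1

/-- planar determinant against a real point -/
def Dr (u : ℤ × ℤ) (z : ℝ × ℝ) : ℝ := (u.1 : ℝ) * z.2 - (u.2 : ℝ) * z.1

lemma D_add_r (u v w : ℤ × ℤ) : D u (v + w) = D u v + D u w := by simp [D]; ring
lemma D_add_l (u v w : ℤ × ℤ) : D (u + v) w = D u w + D v w := by simp [D]; ring
lemma D_sub_r (u v w : ℤ × ℤ) : D u (v - w) = D u v - D u w := by simp [D]; ring
lemma D_sub_l (u v w : ℤ × ℤ) : D (u - v) w = D u w - D v w := by simp [D]; ring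
lemma D_smul_r (u v : ℤ × ℤ) (k : ℤ) : D u (k • v) = k * D u v := by simp [D]; ring
lemma D_smul_l (u v : ℤ × ℤ) (k : ℤ) : D (k • u) v = k * D u v := by simp [D]; ring
lemma D_neg_r (u v : ℤ × ℤ) : D u (-v) = -D u v := by simp [D]; ring
lemma D_neg_l (u v : ℤ × ℤ) : D (-u) v = -D u v := by simp [D]; ring
lemma D_self (u : ℤ × ℤ) : D u u = 0 := by simp [D]; ring
lemma D_anti (u v : ℤ × ℤ) : D u v = -D v u := by simp [D]; ring
lemma D_pl (u v w x : ℤ × ℤ) : D u w * D v x = D u v * D w x + D v w * D u x := by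
  simp [D]; ring
lemma Dr_neg (u : ℤ × ℤ) (z : ℝ × ℝ) : Dr (-u) z = -Dr u z := by simp [Dr]; ring
lemma Dr_add (u v : ℤ × ℤ) (z : ℝ × ℝ) : Dr (u + v) z = Dr u z + Dr v z := by simp [Dr]; ring
lemma Dr_smul (u : ℤ × ℤ) (k : ℤ) (z : ℝ × ℝ) : Dr (k • u) z = k * Dr u z := by simp [Dr]; ring

lemma decomp {b b' : ℤ × ℤ} (h : D b b' = 1) (v : ℤ × ℤ) :
    v = D b v • b' - D b' v • b := by
  unfold D at *
  ext
  · simp; linear_combination (-v.1) * h
  · simp; linear_combination (-v.2) * h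

lemma eq_of_D {b b' : ℤ × ℤ} (h : D b b' = 1) {v w : ℤ × ℤ} (h1 : D b v = D b w)
    (h2 : D b' v = D b' w) : v = w := by
  rw [decomp h v, decomp h w, h1, h2]

/-- The local data at a vertex: `F` = roots through the vertex, `P` = roots of level one,
`z` = position of the imaginary direction, `C` = chamber relation. -/
structure Pl (F P : Set (ℤ × ℤ)) (z : ℝ × ℝ) (C : ℤ × ℤ → ℤ × ℤ → ℤ × ℤ → Prop) : Prop where
  neg : ∀ u ∈ F, -u ∈ F
  fin : F.Finite
  ex : ∀ b ∈ F, ∃ b' g, C b b' g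
  memF : ∀ b b' g, C b b' g → b' ∈ F
  memP : ∀ b b' g, C b b' g → g ∈ P
  one : ∀ b b' g, C b b' g → D b b' = 1
  sgn : ∀ b b' g, C b b' g → ∀ u ∈ F, (0 ≤ D b u ∧ 0 ≤ D b' u) ∨ (D b u ≤ 0 ∧ D b' u ≤ 0)
  minP : ∀ b b' g, C b b' g → ∀ p ∈ P, D b g ≤ D b p ∧ D b' g ≤ D b' p
  minz : ∀ b b' g, C b b' g → (D b g : ℝ) ≤ Dr b z
  irr : ∀ b0 b1 b2 b3 g, C b0 b1 g → C b1 b2 g → C b2 b3 g → False
  dir : ∀ p ∈ P, ∀ x w : ℤ × ℤ, ∀ k : ℤ, 2 ≤ k → p + k • x ∈ P → D x w = 1 →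
    Dr x z ≠ D x p → x ∈ F ∧ p + x ∈ P
  strF : ∀ x ∈ F, ∀ u ∈ F, ∀ k : ℤ, 2 ≤ k → D x u = 1 → u + k • x ∈ F → u + x ∈ F
  row : ∀ x ∈ F, ∀ t : ℤ, Dr x z ≠ t → ∀ p ∈ P, ∀ q ∈ P, D x p < t → t < D x q →
    ∃ r ∈ P, D x r = t
  nz : ∀ p ∈ P, ¬ (z.1 = p.1 ∧ z.2 = p.2)

variable {F P : Set (ℤ × ℤ)} {z : ℝ × ℝ} {C : ℤ × ℤ → ℤ × ℤ → ℤ × ℤ → Prop}

open Classical in
noncomputable def nx (C : ℤ × ℤ → ℤ × ℤ → ℤ × ℤ → Prop) (b : ℤ × ℤ) : ℤ × ℤ :=
  if h : ∃ b' g, C b b' g then h.choose else 0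

open Classical in
noncomputable def gm (C : ℤ × ℤ → ℤ × ℤ → ℤ × ℤ → Prop) (b : ℤ × ℤ) : ℤ × ℤ :=
  if h : ∃ b' g, C b b' g then h.choose_spec.choose else 0

lemma Pl.cnx (h : Pl F P z C) {b : ℤ × ℤ} (hb : b ∈ F) : C b (nx C b) (gm C b) := by
  have := h.ex b hb
  unfold nx gm
  rw [dif_pos this, dif_pos this]
  exact this.choose_spec.choose_spec

lemma Pl.nxF (h : Pl F P z C) {b : ℤ × ℤ} (hb : b ∈ F) : nx C b ∈ F := h.memF _ _ _ (h.cnx hb)
lemma Pl.gmP (h : Pl F P z C) {b : ℤ × ℤ} (hb : b ∈ F) : gm C b ∈ P := h.memP _ _ _ (h.cnx hb)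
lemma Pl.nx1 (h : Pl F P z C) {b : ℤ × ℤ} (hb : b ∈ F) : D b (nx C b) = 1 :=
  h.one _ _ _ (h.cnx hb)

/-- turning lemma -/
lemma Pl.turn (h : Pl F P z C) {b u : ℤ × ℤ} (hb : b ∈ F) (hu : u ∈ F) (hp : 0 < D b u) :
    0 < D (nx C b) u ∨ u = nx C b := by
  rcases h.sgn _ _ _ (h.cnx hb) u hu with h1 | h1
  · rcases h1.2.lt_or_eq with h2 | h2
    · exact Or.inl h2
    · right
      have e := decomp (h.nx1 hb) u
      rw [← h2, zero_smul, sub_zero] at e
      have h3 := h.nx1 hu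
      rw [e, D_smul_l] at h3
      have : D b u = 1 := Int.eq_one_of_mul_eq_one_right hp.le h3
      rw [e, this, one_smul]
  · omega

lemma Pl.turn' (h : Pl F P z C) {b u : ℤ × ℤ} (hb : b ∈ F) (hu : u ∈ F) (hp : 0 < D b u) :
    0 ≤ D (nx C b) u := by
  rcases h.turn hb hu hp with h1 | h1
  · exact h1.le
  · rw [h1, D_self]

lemma Pl.par (h : Pl F P z C) {b u : ℤ × ℤ} (hb : b ∈ F) (hu : u ∈ F) (hp : D b u = 0) :
    u = b ∨ u = -b := by
  have e := decomp (h.nx1 hb) u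
  rw [hp, zero_smul, zero_sub, ← neg_smul] at e
  have h3 := h.nx1 hu
  rw [e, D_smul_l] at h3
  rcases Int.eq_one_or_neg_one_of_mul_eq_one h3 with h4 | h4
  · left; rw [e, h4, one_smul]
  · right; rw [e, h4, neg_smul, one_smul]

lemma Pl.nx_neg (h : Pl F P z C) {b : ℤ × ℤ} (hb : b ∈ F) : nx C (-b) = -nx C b := by
  have hb' := h.neg b hb
  have h1 := h.nx1 hb
  have h2 := h.nx1 hb'
  have h3 := h.turn' hb' (h.neg _ (h.nxF hb)) (by rw [D_neg_l, D_neg_r]; omega)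
  have h4 := h.turn' hb (h.neg _ (h.nxF hb')) (by rw [D_neg_l] at h2; rw [D_neg_r]; omega)
  rw [D_neg_r] at h3 h4
  rw [D_neg_l] at h2
  apply eq_of_D h1
  · rw [D_neg_r]; omega
  · have h5 := D_anti (nx C b) (nx C (-b))
    rw [D_neg_r, D_self]; omega

lemma Pl.nx_inj (h : Pl F P z C) {b c : ℤ × ℤ} (hb : b ∈ F) (hc : c ∈ F)
    (e : nx C b = nx C c) : b = c := by
  have h1 := h.nx1 hb
  have h2 := h.nx1 hc
  have h3 := h.sgn _ _ _ (h.cnx hb) c hc
  have h4 := h.sgn _ _ _ (h.cnx hc) b hb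
  rw [← e] at h2 h4
  have h5 := D_anti (nx C b) c
  have h6 := D_anti (nx C b) b
  have h7 := D_anti b c
  apply eq_of_D h1
  · rw [D_self]; omega
  · omega

lemma Pl.nx_surj (h : Pl F P z C) {x : ℤ × ℤ} (hx : x ∈ F) : ∃ b ∈ F, nx C b = x := by
  have := (h.fin.injOn_iff_bijOn_of_mapsTo (f := nx C) (fun b hb => h.nxF hb)).1
    (fun b hb c hc e => h.nx_inj hb hc e)
  exact this.surjOn hx

/-- the sequence of consecutive roots -/
noncomputable def sq (C : ℤ × ℤ → ℤ × ℤ → ℤ × ℤ → Prop) (b : ℤ × ℤ) (m : ℕ) : ℤ × ℤ :=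
  (nx C)^[m] b

lemma sq_zero (b : ℤ × ℤ) : sq C b 0 = b := rfl
lemma sq_succ (b : ℤ × ℤ) (m : ℕ) : sq C b (m + 1) = nx C (sq C b m) :=
  Function.iterate_succ_apply' _ _ _
lemma sq_add (b : ℤ × ℤ) (k j : ℕ) : sq C b (k + j) = sq C (sq C b k) j := by
  unfold sq; rw [add_comm, Function.iterate_add_apply]

lemma Pl.sqF (h : Pl F P z C) {b : ℤ × ℤ} (hb : b ∈ F) (m : ℕ) : sq C b m ∈ F := by
  induction m with
  | zero => exact hb
  | succ m ih => rw [sq_succ]; exact h.nxF ih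

lemma Pl.sq_neg (h : Pl F P z C) {b : ℤ × ℤ} (hb : b ∈ F) (m : ℕ) :
    sq C (-b) m = -sq C b m := by
  induction m with
  | zero => rfl
  | succ m ih => rw [sq_succ, sq_succ, ih, h.nx_neg (h.sqF hb m)]

lemma Pl.sq1 (h : Pl F P z C) {b : ℤ × ℤ} (hb : b ∈ F) (m : ℕ) :
    D (sq C b m) (sq C b (m + 1)) = 1 := by
  rw [sq_succ]; exact h.nx1 (h.sqF hb m)

lemma Pl.sq_surj (h : Pl F P z C) (m : ℕ) : ∀ x ∈ F, ∃ b ∈ F, sq C b m = x := by
  induction m with
  | zero => exact fun x hx => ⟨x, hx, rfl⟩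
  | succ m ih =>
    intro x hx
    obtain ⟨y, hy, e⟩ := h.nx_surj hx
    obtain ⟨b, hb, e'⟩ := ih y hy
    exact ⟨b, hb, by rw [sq_succ, e', e]⟩

/-- a root on the left of `b` stays on the left until it is met -/
lemma Pl.stay (h : Pl F P z C) {b u : ℤ × ℤ} (hb : b ∈ F) (hu : u ∈ F) (hp : 0 < D b u)
    (m : ℕ) (hn : ∀ j, j ≤ m → u ≠ sq C b j) : 0 < D (sq C b m) u := by
  induction m with
  | zero => exact hp
  | succ m ih =>
    have h1 := ih (fun j hj => hn j (by omega))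
    rcases h.turn (h.sqF hb m) hu h1 with h2 | h2
    · rw [sq_succ]; exact h2
    · exact absurd (by rw [sq_succ]; exact h2) (hn (m + 1) le_rfl)

lemma Pl.long0 (h : Pl F P z C) {N : ℕ} (hN : 2 * N < F.ncard) {b : ℤ × ℤ} (hb : b ∈ F)
    (m : ℕ) (hm : m + 1 ≤ N) : 0 < D b (sq C b (m + 1)) := by
  induction m with
  | zero => have := h.sq1 hb 0; rw [sq_zero] at this; omega
  | succ m ih =>
    have h1 := ih (by omega)
    have h2 : 0 < D (sq C b (m + 1)) (-b) := by rw [D_neg_r, D_anti]; omega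
    rcases h.turn (h.sqF hb (m + 1)) (h.neg b hb) h2 with h3 | h3
    · rw [← sq_succ, D_neg_r, D_anti] at h3; omega
    · exfalso
      rw [← sq_succ] at h3
      have key : ∀ u ∈ F, 0 < D b u → ∃ j, j ≤ m + 1 ∧ u = sq C b j := by
        intro u hu hp
        by_contra hc
        push_neg at hc
        have h4 := h.stay hb hu hp (m + 1) hc
        have h5 := h.turn' (h.sqF hb (m + 1)) hu h4
        rw [← sq_succ, ← h3, D_neg_l] at h5
        omega
      have hsub : F ⊆ ↑(((Finset.range (m + 2)).image (fun j => sq C b j)) ∪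
          ((Finset.range (m + 2)).image (fun j => -sq C b j))) := by
        intro u hu
        simp only [Finset.coe_union, Finset.coe_image, Finset.coe_range, Set.mem_union,
          Set.mem_image, Set.mem_Iio]
        rcases lt_trichotomy (D b u) 0 with h4 | h4 | h4
        · obtain ⟨j, hj, e⟩ := key (-u) (h.neg u hu) (by rw [D_neg_r]; omega)
          exact Or.inr ⟨j, by omega, by rw [← e, neg_neg]⟩
        · rcases h.par hb hu h4 with e | e
          · exact Or.inl ⟨0, by omega, e.symm⟩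
          · exact Or.inr ⟨0, by omega, e.symm⟩
        · obtain ⟨j, hj, e⟩ := key u hu h4
          exact Or.inl ⟨j, by omega, e.symm⟩
      have h6 := Set.ncard_le_ncard hsub (Finset.finite_toSet _)
      rw [Set.ncard_coe_finset] at h6
      have h7 := Finset.card_union_le ((Finset.range (m + 2)).image (fun j => sq C b j))
        ((Finset.range (m + 2)).image (fun j => -sq C b j))
      have h8 := Finset.card_image_le (s := Finset.range (m + 2)) (f := fun j => sq C b j)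
      have h9 := Finset.card_image_le (s := Finset.range (m + 2)) (f := fun j => -sq C b j)
      rw [Finset.card_range] at h8 h9
      omega

lemma Pl.long (h : Pl F P z C) {N : ℕ} (hN : 2 * N < F.ncard) {b : ℤ × ℤ} (hb : b ∈ F)
    {k m : ℕ} (hk : k < m) (hm : m ≤ k + N) : 0 < D (sq C b k) (sq C b m) := by
  obtain ⟨j, rfl⟩ : ∃ j, m = k + (j + 1) := ⟨m - k - 1, by omega⟩
  rw [sq_add]
  exact h.long0 hN (h.sqF hb k) j (by omega)

/-- vertices of the polygon -/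
noncomputable def av (C : ℤ × ℤ → ℤ × ℤ → ℤ × ℤ → Prop) (b : ℤ × ℤ) (m : ℕ) : ℤ × ℤ :=
  gm C (sq C b m)

/-- edge lengths: `av (m+1) = av m + dl m • sq (m+1)` -/
noncomputable def dl (C : ℤ × ℤ → ℤ × ℤ → ℤ × ℤ → Prop) (b : ℤ × ℤ) (m : ℕ) : ℤ :=
  D (sq C b m) (av C b (m + 1) - av C b m)

lemma Pl.csq (h : Pl F P z C) {b : ℤ × ℤ} (hb : b ∈ F) (m : ℕ) :
    C (sq C b m) (sq C b (m + 1)) (av C b m) := by
  rw [sq_succ]; exact h.cnx (h.sqF hb m)

lemma Pl.avP (h : Pl F P z C) {b : ℤ × ℤ} (hb : b ∈ F) (m : ℕ) : av C b m ∈ P :=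
  h.gmP (h.sqF hb m)

lemma Pl.dl_nonneg (h : Pl F P z C) {b : ℤ × ℤ} (hb : b ∈ F) (m : ℕ) : 0 ≤ dl C b m := by
  have := (h.minP _ _ _ (h.csq hb m) _ (h.avP hb (m + 1))).1
  unfold dl; rw [D_sub_r]; omega

lemma Pl.av_succ (h : Pl F P z C) {b : ℤ × ℤ} (hb : b ∈ F) (m : ℕ) :
    av C b (m + 1) = av C b m + dl C b m • sq C b (m + 1) := by
  have h1 := (h.minP _ _ _ (h.csq hb m) _ (h.avP hb (m + 1))).2
  have h2 := (h.minP _ _ _ (h.csq hb (m + 1)) _ (h.avP hb m)).1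
  have e := decomp (h.sq1 hb m) (av C b (m + 1) - av C b m)
  have h3 : D (sq C b (m + 1)) (av C b (m + 1) - av C b m) = 0 := by rw [D_sub_r]; omega
  rw [h3, zero_smul, sub_zero] at e
  unfold dl
  rw [← e]; abel

lemma Pl.dl_two (h : Pl F P z C) {b : ℤ × ℤ} (hb : b ∈ F) (m : ℕ) :
    1 ≤ dl C b m + dl C b (m + 1) := by
  have h1 := h.dl_nonneg hb m
  have h2 := h.dl_nonneg hb (m + 1)
  by_contra hc
  have e1 : dl C b m = 0 := by omega
  have e2 : dl C b (m + 1) = 0 := by omega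
  have a1 := h.av_succ hb m
  have a2 := h.av_succ hb (m + 1)
  rw [e1, zero_smul, add_zero] at a1
  rw [e2, zero_smul, add_zero] at a2
  have c0 := h.csq hb m
  have c1 := h.csq hb (m + 1)
  have c2 := h.csq hb (m + 1 + 1)
  rw [a2, a1] at c2
  rw [a1] at c1
  exact h.irr _ _ _ _ _ c0 c1 c2

lemma Pl.qd (h : Pl F P z C) {b : ℤ × ℤ} (hb : b ∈ F) (m : ℕ) :
    sq C b m + sq C b (m + 2) = D (sq C b m) (sq C b (m + 2)) • sq C b (m + 1) := by
  have h1 := h.sq1 hb m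
  have h2 := h.sq1 hb (m + 1)
  apply eq_of_D h1
  · rw [D_add_r, D_smul_r, D_self, h1]; ring
  · rw [D_add_r, D_smul_r, D_self, D_anti _ (sq C b m), h1]
    have : m + 1 + 1 = m + 2 := rfl
    rw [this] at h2
    rw [h2]; ring

/-- growth of a linear form along the polygon -/
lemma Pl.sum (h : Pl F P z C) {b : ℤ × ℤ} (hb : b ∈ F) (w : ℤ × ℤ) (j r : ℕ)
    (hw : ∀ m, j < m → m ≤ j + 2 * r → 1 ≤ D w (sq C b m)) :
    (r : ℤ) ≤ D w (av C b (j + 2 * r) - av C b j) := by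
  induction r with
  | zero => simp [D]
  | succ r ih =>
    have h1 := ih (fun m h1 h2 => hw m h1 (by omega))
    have a1 := h.av_succ hb (j + 2 * r)
    have a2 := h.av_succ hb (j + 2 * r + 1)
    have e : j + 2 * (r + 1) = j + 2 * r + 1 + 1 := by ring
    rw [e, a2, a1]
    have w1 := hw (j + 2 * r + 1) (by omega) (by omega)
    have w2 := hw (j + 2 * r + 1 + 1) (by omega) (by omega)
    have d1 := h.dl_nonneg hb (j + 2 * r)
    have d2 := h.dl_nonneg hb (j + 2 * r + 1)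
    have d3 := h.dl_two hb (j + 2 * r)
    simp only [D_sub_r, D_add_r, D_smul_r] at h1 ⊢
    push_cast
    nlinarith

lemma Pl.str (h : Pl F P z C) {x w : ℤ × ℤ} (hw : D x w = 1) (n : ℕ) :
    ∀ p ∈ P, ∀ k : ℤ, p + k • x ∈ P → Dr x z ≠ D x p → (n : ℤ) ≤ k → p + (n : ℤ) • x ∈ P := by
  induction n with
  | zero => intro p hp k _ _ _; simpa using hp
  | succ n ih =>
    intro p hp k hk hz hn
    push_cast at hn
    rcases hn.lt_or_eq with h1 | h1
    · have h2 := (h.dir p hp x w k (by omega) hk hw hz).2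
      have h3 := ih (p + x) h2 (k - 1) (by rw [sub_smul, one_smul]; convert hk using 1; abel)
        (by rw [D_add_r, D_self, add_zero]; exact hz) (by omega)
      push_cast
      rw [add_smul, one_smul]
      convert h3 using 1; abel
    · push_cast; rw [h1]; exact hk

lemma Pl.str' (h : Pl F P z C) {x w : ℤ × ℤ} (hw : D x w = 1) {p : ℤ × ℤ} (hp : p ∈ P) {k : ℤ}
    (hk : p + k • x ∈ P) (hz : Dr x z ≠ D x p) {i : ℤ} (h0 : 0 ≤ i) (hi : i ≤ k) :
    p + i • x ∈ P := by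
  obtain ⟨n, rfl⟩ := Int.eq_ofNat_of_zero_le h0
  exact h.str hw n p hp k hk hz hi

lemma Pl.strF0 (h : Pl F P z C) {x : ℤ × ℤ} (hx : x ∈ F) (n : ℕ) :
    ∀ u ∈ F, ∀ k : ℤ, D x u = 1 → u + k • x ∈ F → (n : ℤ) ≤ k → u + (n : ℤ) • x ∈ F := by
  induction n with
  | zero => intro p hp k _ _ _; simpa using hp
  | succ n ih =>
    intro p hp k hz hk hn
    push_cast at hn
    rcases hn.lt_or_eq with h1 | h1
    · have h2 := h.strF x hx p hp k (by omega) hz hk
      have h3 := ih (p + x) h2 (k - 1) (by rw [D_add_r, D_self, add_zero]; exact hz)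
        (by rw [sub_smul, one_smul]; convert hk using 1; abel) (by omega)
      push_cast
      rw [add_smul, one_smul]
      convert h3 using 1; abel
    · push_cast; rw [h1]; exact hk

lemma Pl.strF' (h : Pl F P z C) {x : ℤ × ℤ} (hx : x ∈ F) {u : ℤ × ℤ} (hu : u ∈ F) {k : ℤ}
    (h1 : D x u = 1) (hk : u + k • x ∈ F) {i : ℤ} (h0 : 0 ≤ i) (hi : i ≤ k) :
    u + i • x ∈ F := by
  obtain ⟨n, rfl⟩ := Int.eq_ofNat_of_zero_le h0
  exact h.strF0 hx n u hu k h1 hk hi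

/-- two independent lines through `z` and `p` force `z = p` -/
lemma Pl.two (h : Pl F P z C) {p x y : ℤ × ℤ} (hp : p ∈ P) (hxy : D x y ≠ 0)
    (h1 : Dr x z = D x p) (h2 : Dr y z = D y p) : False := by
  apply h.nz p hp
  have h3 : (D x y : ℝ) ≠ 0 := by exact_mod_cast hxy
  unfold D Dr at *
  push_cast at *
  constructor
  · apply mul_left_cancel₀ h3
    linear_combination (y.1 : ℝ) * h1 - (x.1 : ℝ) * h2
  · apply mul_left_cancel₀ h3
    linear_combination (y.2 : ℝ) * h1 - (x.2 : ℝ) * h2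

end Pool.Agent.MP_ad1a12_co

end

-- part MP_ad1a12_co.Planar2
section

namespace Pool.Agent.MP_ad1a12_co

variable {F P : Set (ℤ × ℤ)} {z : ℝ × ℝ} {C : ℤ × ℤ → ℤ × ℤ → ℤ × ℤ → Prop}

/-- the first two rows of the slot `x` do not contain `z` -/
def Unb (C : ℤ × ℤ → ℤ × ℤ → ℤ × ℤ → Prop) (z : ℝ × ℝ) (x : ℤ × ℤ) : Prop :=
  (D x (gm C x) : ℝ) + 1 < Dr x z

lemma Pl.blocked (h : Pl F P z C) {N : ℕ} (hN : 2 * N < F.ncard) (h20 : 20 ≤ N) {b : ℤ × ℤ}
    (hb : b ∈ F) {k j : ℕ} (hk : k ≤ j) (hj : j ≤ 12) (h1 : ¬ Unb C z (sq C b j))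
    (h2 : ¬ Unb C z (-sq C b k)) : False := by
  unfold Unb at h1 h2
  push_neg at h1 h2
  have s1 := h.sum hb (sq C b j) j 2 (fun m h1 h2 => h.long hN hb h1 (by omega))
  have s2 := h.sum hb (sq C b k) (j + 2 * 2) 2
    (fun m h1 h2 => h.long hN hb (by omega) (by omega))
  have m1 := (h.minP _ _ _ (h.cnx (h.neg _ (h.sqF hb k))) _ (h.avP hb (j + 2 * 2 + 2 * 2))).1
  have m2 := h.minz _ _ _ (h.csq hb (j + 2 * 2))
  have l1 : 0 ≤ D (sq C b k) (sq C b j) := by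
    rcases hk.lt_or_eq with e | e
    · exact (h.long hN hb e (by omega)).le
    · rw [e, D_self]
  have l2 : 0 < D (sq C b k) (sq C b (j + 2 * 2)) := h.long hN hb (by omega) (by omega)
  have l3 : 0 < D (sq C b j) (sq C b (j + 2 * 2)) := h.long hN hb (by omega) (by omega)
  have e0 : gm C (sq C b j) = av C b j := rfl
  rw [e0] at h1
  rw [D_sub_r] at s1 s2
  rw [Dr_neg] at h2
  rw [D_neg_l, D_neg_l] at m1
  rw [D_neg_l] at h2
  set a := av C b (j + 2 * 2)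
  set u := sq C b k
  set v := sq C b j
  set w := sq C b (j + 2 * 2)
  have t1 : Dr v z - D v a ≤ -1 := by
    have : (D v (av C b j) : ℝ) + 2 ≤ D v a := by exact_mod_cast (by push_cast at s1; omega)
    linarith
  have t2 : 1 ≤ Dr u z - D u a := by
    have : (D u a : ℝ) + 2 ≤ D u (gm C (-u)) := by
      have : D u a + 2 ≤ D u (gm C (-u)) := by
        have e2 : ((2 : ℕ) : ℤ) = 2 := rfl
        rw [e2] at s2; omega
      exact_mod_cast this
    push_cast at h2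
    linarith
  have id : (D u v : ℝ) * (Dr w z - D w a) =
      D u w * (Dr v z - D v a) - D v w * (Dr u z - D u a) := by
    unfold D Dr; push_cast; ring
  have l1' : (0 : ℝ) ≤ D u v := by exact_mod_cast l1
  have l2' : (0 : ℝ) < D u w := by exact_mod_cast l2
  have l3' : (0 : ℝ) < D v w := by exact_mod_cast l3
  nlinarith [mul_nonneg l1' (sub_nonneg.2 m2)]

lemma Pl.unb_or (h : Pl F P z C) {N : ℕ} (hN : 2 * N < F.ncard) (h20 : 20 ≤ N) {b : ℤ × ℤ}
    (hb : b ∈ F) : (∀ j ≤ 12, Unb C z (sq C b j)) ∨ (∀ j ≤ 12, Unb C z (sq C (-b) j)) := by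
  by_contra hc
  push_neg at hc
  obtain ⟨⟨j, hj, h1⟩, ⟨k, hk, h2⟩⟩ := hc
  rcases le_total k j with e | e
  · rw [h.sq_neg hb] at h2
    exact h.blocked hN h20 hb e hj h1 h2
  · refine h.blocked hN h20 (h.neg b hb) e hk h2 ?_
    rw [h.sq_neg hb, neg_neg]; exact h1

lemma Pl.edge (h : Pl F P z C) {b : ℤ × ℤ} (hb : b ∈ F) (m : ℕ) (hu : Unb C z (sq C b (m + 1)))
    {i : ℤ} (h0 : 0 ≤ i) (hi : i ≤ dl C b m) : av C b m + i • sq C b (m + 1) ∈ P := by
  refine h.str' (h.sq1 hb (m + 1)) (h.avP hb m) (k := dl C b m) ?_ ?_ h0 hi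
  · rw [← h.av_succ hb m]; exact h.avP hb _
  · have e : D (sq C b (m + 1)) (av C b m) = D (sq C b (m + 1)) (gm C (sq C b (m + 1))) := by
      have e0 : gm C (sq C b (m + 1)) = av C b (m + 1) := rfl
      rw [e0, h.av_succ hb m, D_add_r, D_smul_r, D_self]; ring
    rw [e]; unfold Unb at hu; linarith

lemma Pl.mid (h : Pl F P z C) {b : ℤ × ℤ} (hb : b ∈ F) (m : ℕ) (u1 : Unb C z (sq C b (m + 1)))
    (u2 : Unb C z (sq C b (m + 2))) (u3 : Unb C z (sq C b (m + 3))) (hd : dl C b (m + 1) = 0)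
    {i : ℤ} (h0 : 0 ≤ i) (hi : i ≤ D (sq C b (m + 1)) (sq C b (m + 3))) :
    av C b (m + 1) - sq C b (m + 1) + i • sq C b (m + 2) ∈ P := by
  have d1 := h.dl_two hb m
  have d2 := h.dl_two hb (m + 1)
  have a1 := h.av_succ hb m
  have a2 := h.av_succ hb (m + 1)
  rw [hd, zero_smul, add_zero] at a2
  have p1 := h.edge hb m u1 (i := dl C b m - 1) (by omega) (by omega)
  have p2 := h.edge hb (m + 2) u3 (i := 1) (by omega) (by
    have : m + 1 + 1 = m + 2 := rfl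
    rw [this] at d2; omega)
  have q := h.qd hb (m + 1)
  have e1 : av C b m + (dl C b m - 1) • sq C b (m + 1) = av C b (m + 1) - sq C b (m + 1) := by
    rw [a1]; module
  rw [e1] at p1
  refine h.str' (h.sq1 hb (m + 2)) p1 (k := D (sq C b (m + 1)) (sq C b (m + 3))) ?_ ?_ h0 hi
  · have e2 : m + 1 + 2 = m + 3 := rfl
    have e3 : m + 1 + 1 = m + 2 := rfl
    have e4 : m + 2 + 1 = m + 3 := rfl
    rw [e2, e3] at q
    rw [e3] at a2
    rw [e4, a2] at p2
    rw [← q]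
    convert p2 using 1
    module
  · have e0 : gm C (sq C b (m + 2)) = av C b (m + 1) := a2
    unfold Unb at u2
    rw [e0] at u2
    have e5 := h.sq1 hb (m + 1)
    have e3 : m + 1 + 1 = m + 2 := rfl
    rw [e3] at e5
    rw [D_sub_r, D_anti _ (sq C b (m + 1)), e5]
    push_cast; linarith

lemma Pl.rend (h : Pl F P z C) {b : ℤ × ℤ} (hb : b ∈ F) (m : ℕ) (u1 : Unb C z (sq C b (m + 1)))
    (u2 : Unb C z (sq C b (m + 2))) (u3 : Unb C z (sq C b (m + 3)))
    (hc : 0 < D (sq C b (m + 1)) (sq C b (m + 3))) :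
    ∃ e : ℤ, 0 ≤ e ∧ e ≤ 1 ∧ av C b (m + 1) + sq C b (m + 2) - e • sq C b (m + 1) ∈ P := by
  rcases (h.dl_nonneg hb (m + 1)).lt_or_eq with e | e
  · refine ⟨0, le_rfl, by omega, ?_⟩
    have := h.edge hb (m + 1) u2 (i := 1) (by omega) (by omega)
    simpa using this
  · refine ⟨1, by omega, le_rfl, ?_⟩
    have := h.mid hb m u1 u2 u3 e.symm (i := 1) (by omega) (by omega)
    convert this using 1
    module

lemma Pl.lend (h : Pl F P z C) {b : ℤ × ℤ} (hb : b ∈ F) (m : ℕ) (u1 : Unb C z (sq C b (m + 1)))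
    (u2 : Unb C z (sq C b (m + 2))) (u3 : Unb C z (sq C b (m + 3)))
    (hc : 0 < D (sq C b (m + 1)) (sq C b (m + 3))) :
    ∃ e : ℤ, 0 ≤ e ∧ e ≤ 1 ∧ av C b (m + 2) - sq C b (m + 2) + e • sq C b (m + 3) ∈ P := by
  have a2 := h.av_succ hb (m + 1)
  have e3 : m + 1 + 1 = m + 2 := rfl
  have e2 : m + 1 + 2 = m + 3 := rfl
  rw [e3] at a2
  rcases (h.dl_nonneg hb (m + 1)).lt_or_eq with e | e
  · refine ⟨0, le_rfl, by omega, ?_⟩
    have := h.edge hb (m + 1) u2 (i := dl C b (m + 1) - 1) (by omega) (by omega)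
    rw [e3] at this
    convert this using 1
    rw [a2]; module
  · refine ⟨1, by omega, le_rfl, ?_⟩
    have := h.mid hb m u1 u2 u3 e.symm (i := D (sq C b (m + 1)) (sq C b (m + 3)) - 1)
      (by omega) (by omega)
    have q := h.qd hb (m + 1)
    rw [e2, e3] at q
    rw [← e, zero_smul, add_zero] at a2
    rw [sub_smul, ← q] at this
    convert this using 1
    rw [a2]; module

/-- the whole second row of a slot -/
lemma Pl.row2 (h : Pl F P z C) {b : ℤ × ℤ} (hb : b ∈ F) (m : ℕ)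
    (u : ∀ j ≤ m + 5, Unb C z (sq C b j))
    (hc : 0 < D (sq C b (m + 1)) (sq C b (m + 3)))
    (hc' : 0 < D (sq C b (m + 3)) (sq C b (m + 5))) :
    ∃ e e' : ℤ, 0 ≤ e ∧ e ≤ 1 ∧ 0 ≤ e' ∧ e' ≤ 1 ∧
      av C b (m + 2) - sq C b (m + 2) + e • sq C b (m + 3) ∈ P ∧
      av C b (m + 2) - sq C b (m + 2) + e • sq C b (m + 3) +
        (dl C b (m + 2) + D (sq C b (m + 2)) (sq C b (m + 4)) - e - e') • sq C b (m + 3) ∈ P ∧
      Dr (sq C b (m + 3)) z ≠
        D (sq C b (m + 3)) (av C b (m + 2) - sq C b (m + 2) + e • sq C b (m + 3)) := by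
  obtain ⟨e, e0, e1, hL⟩ := h.lend hb m (u _ (by omega)) (u _ (by omega)) (u _ (by omega)) hc
  obtain ⟨e', e0', e1', hR⟩ :=
    h.rend hb (m + 2) (u _ (by omega)) (u _ (by omega)) (u _ (by omega)) hc'
  have a := h.av_succ hb (m + 2)
  have q := h.qd hb (m + 2)
  have o := h.sq1 hb (m + 2)
  have i1 : m + 2 + 1 = m + 3 := rfl
  have i2 : m + 2 + 2 = m + 4 := rfl
  rw [i1, i2] at hR q
  rw [i1] at a o
  refine ⟨e, e', e0, e1, e0', e1', hL, ?_, ?_⟩
  · rw [sub_smul, sub_smul, add_smul, ← q]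
    convert hR using 1
    rw [a]; module
  · have u3 := u (m + 3) (by omega)
    unfold Unb at u3
    have e0 : gm C (sq C b (m + 3)) = av C b (m + 3) := rfl
    rw [e0, a, D_add_r, D_smul_r, D_self] at u3
    rw [D_add_r, D_sub_r, D_smul_r, D_self, D_anti _ (sq C b (m + 2)), o]
    push_cast at u3 ⊢
    linarith

lemma Pl.cross (h : Pl F P z C) {X Y a x w p : ℤ × ℤ} {k : ℤ} (hw : D x w = 1) (hp : p ∈ P)
    (hk : p + k • x ∈ P) (hz : Dr x z ≠ D x p) (h1 : D X p - D X a ≤ 2)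
    (h2 : 3 ≤ D X (p + k • x) - D X a) (t1 : 1 ≤ D X x) (t2 : D X x ≤ 11)
    (g1 : 0 ≤ D x Y + 8 * D X x) (g2 : -100 ≤ D p Y - D a Y + 8 * (D X p - D X a)) :
    ∃ q ∈ P, 3 ≤ D X q - D X a ∧ D X q - D X a ≤ 13 ∧
      -100 ≤ D q Y - D a Y + 8 * (D X q - D X a) := by
  rw [D_add_r, D_smul_r] at h2
  set t := D X x
  set H := D X p - D X a with hH
  have i1 := Int.ediv_mul_le (3 - H + t - 1) (show t ≠ 0 by omega)
  have i2 := Int.lt_ediv_add_one_mul_self (3 - H + t - 1) (show 0 < t by omega)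
  set i := (3 - H + t - 1) / t
  have i0 : 0 ≤ i := by nlinarith
  have ik : i ≤ k := by nlinarith
  refine ⟨p + i • x, h.str' hw hp hk hz i0 ik, ?_, ?_, ?_⟩
  · rw [D_add_r, D_smul_r]; nlinarith
  · rw [D_add_r, D_smul_r]; nlinarith
  · rw [D_add_r, D_smul_r, D_add_l, D_smul_l]; nlinarith [mul_nonneg i0 g1]

lemma Pl.quid0 (h : Pl F P z C) {N : ℕ} (hN : 2 * N < F.ncard) (h20 : 20 ≤ N) {b : ℤ × ℤ}
    (hb : b ∈ F) (u : ∀ j ≤ 12, Unb C z (sq C b j)) : D (sq C b 2) (sq C b 4) ≤ 300 := by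
  by_contra hc
  push_neg at hc
  have L : ∀ k m, k < m → m ≤ 20 → 0 < D (sq C b k) (sq C b m) :=
    fun k m h1 h2 => h.long hN hb h1 (by omega)
  have o3 : D (sq C b 3) (sq C b 4) = 1 := h.sq1 hb 3
  have q2 : sq C b 2 + sq C b 4 = D (sq C b 2) (sq C b 4) • sq C b 3 := h.qd hb 2
  have a2 : av C b 3 = av C b 2 + dl C b 2 • sq C b 3 := h.av_succ hb 2
  have c3 : C (sq C b 3) (sq C b 4) (av C b 3) := h.csq hb 3
  set c := D (sq C b 2) (sq C b 4) with hcdef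
  -- row one
  have row1 : ∀ s : ℤ, -c + 1 ≤ s → s ≤ -1 → av C b 3 + sq C b 4 + s • sq C b 3 ∈ P := by
    intro s s1 s2
    obtain ⟨e, e', e0, e1, e0', e1', hL, hR, hz⟩ :=
      h.row2 hb 0 (fun j hj => u j (by omega)) (L _ _ (by omega) (by omega))
        (L _ _ (by omega) (by omega))
    simp only [zero_add] at hL hR hz
    have d0 := h.dl_nonneg hb 2
    have := h.str' o3 hL hR hz (i := s - (e - dl C b 2 - c)) (by omega) (by omega)
    convert this using 1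
    have : sq C b 2 = c • sq C b 3 - sq C b 4 := by rw [← q2]; abel
    rw [a2, this]; module
  set X := sq C b 3 with hX
  set Y := sq C b 4 with hY
  set a := av C b 3 with ha
  have XF : X ∈ F := h.sqF hb 3
  have YF : Y ∈ F := h.sqF hb 4
  have YX : D Y X = -1 := by rw [D_anti, o3]
  have fin : ∀ p ∈ P, 3 ≤ D X p - D X a → D X p - D X a ≤ 13 →
      -100 ≤ D p Y - D a Y + 8 * (D X p - D X a) → False := by
    intro p hp p1 p2 p3
    have m := (h.minP _ _ _ c3 p hp).2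
    have e := decomp o3 (p - a)
    rw [D_sub_r, D_sub_r] at e
    rw [D_anti p, D_anti a] at p3
    set t := D X p - D X a
    set s := D Y p - D Y a with hs
    have ep : p = a + t • Y - s • X := by rw [add_sub_assoc, ← e]; abel
    have nr : ∀ j : ℤ, 1 ≤ j → j • X + Y ∉ F := by
      intro j hj hF
      have := h.sgn _ _ _ c3 _ hF
      rw [D_add_r, D_add_r, D_smul_r, D_smul_r, D_self, D_self, o3, YX] at this
      omega
    have on : ∀ j : ℤ, 1 ≤ j → j ≤ 2 → Dr (j • X + Y) z = D (j • X + Y) p := by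
      intro j j1 j2
      by_contra hz
      have jt1 : j * (t - 1) ≤ 24 := by
        have : j = 1 ∨ j = 2 := by omega
        rcases this with rfl | rfl <;> omega
      have jt2 : 2 ≤ j * (t - 1) := by
        have : j = 1 ∨ j = 2 := by omega
        rcases this with rfl | rfl <;> omega
      have r := row1 (-s - j * (t - 1)) (by linarith) (by linarith)
      have ep' : a + Y + (-s - j * (t - 1)) • X + (t - 1) • (j • X + Y) = p := by
        rw [ep]; module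
      refine nr j j1 (h.dir _ r (j • X + Y) (-X) (t - 1) (by omega) (by rw [ep']; exact hp)
        ?_ ?_).1
      · rw [D_neg_r, D_add_l, D_smul_l, D_self, YX]; ring
      · have : D (j • X + Y) (a + Y + (-s - j * (t - 1)) • X) = D (j • X + Y) p := by
          rw [← ep', D_add_r _ _ ((t - 1) • (j • X + Y)), D_smul_r, D_self]; ring
        rw [this]; exact hz
    refine h.two hp ?_ (on 1 (by omega) (by omega)) (on 2 (by omega) (by omega))
    simp only [D_add_l, D_add_r, D_smul_l, D_smul_r, D_self, o3, YX]; omega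
  -- slopes
  have wF : ∀ i : ℤ, 0 ≤ i → i ≤ 8 → Y - i • X ∈ F := by
    intro i i0 i1
    have n2 := h.neg _ (h.sqF hb 2)
    have e2 : -sq C b 2 = Y - c • X := by rw [← q2]; abel
    have := h.strF' XF n2 (k := c) (by rw [e2, D_sub_r, D_smul_r, D_self, o3]; ring)
      (by rw [e2]; convert YF using 1; module) (i := c - i) (by omega) (by omega)
    convert this using 1
    rw [e2]; module
  have tau : ∀ i : ℕ, i ≤ 8 → 1 ≤ D X (sq C b (4 + i)) := fun i hi => L 3 _ (by omega) (by omega)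
  have slope : ∀ i : ℕ, i ≤ 8 → 0 ≤ D (sq C b (4 + i)) Y + i * D X (sq C b (4 + i)) := by
    intro i
    induction i with
    | zero => intro _; simp [← hY, D_self]
    | succ i ih =>
      intro hi
      have h1 := ih (by omega)
      have h2 := tau i (by omega)
      have h3 := h.turn' (h.sqF hb (4 + i)) (wF (i + 1 : ℕ) (by omega) (by omega)) (by
        rw [D_sub_r, D_smul_r, D_anti _ X]; push_cast; linarith)
      rw [← sq_succ, D_sub_r, D_smul_r, D_anti _ X] at h3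
      have : 4 + (i + 1) = 4 + i + 1 := rfl
      rw [this]; linarith
  have gpos : ∀ i : ℕ, i ≤ 8 → 0 ≤ D (sq C b (4 + i)) Y + 8 * D X (sq C b (4 + i)) := by
    intro i hi
    have h1 := slope i hi
    have h2 := tau i hi
    have : (i : ℤ) ≤ 8 := by exact_mod_cast hi
    have := mul_nonneg (sub_nonneg.2 this) (show 0 ≤ D X (sq C b (4 + i)) by omega)
    linarith
  have sneg : ∀ i : ℕ, i ≤ 8 → D (sq C b (3 + i)) Y ≤ 1 ∧ 0 ≤ D X (sq C b (3 + i)) := by
    intro i hi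
    rcases i with _ | i
    · simp [← hX, o3, D_self]
    · have h2 := tau i (by omega)
      have e : 3 + (i + 1) = 4 + i := by omega
      rw [e]
      have := h.sgn _ _ _ c3 _ (h.sqF hb (4 + i))
      rw [D_anti _ Y]
      omega
  have Gpos : ∀ n : ℕ, n ≤ 8 →
      0 ≤ D (av C b (3 + n)) Y - D a Y + 8 * (D X (av C b (3 + n)) - D X a) ∧
        0 ≤ D X (av C b (3 + n)) - D X a := by
    intro n
    induction n with
    | zero => intro _; simp [← ha]
    | succ n ih =>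
      intro hn
      have h1 := ih (by omega)
      have h2 := h.av_succ hb (3 + n)
      have e : 3 + n + 1 = 4 + n := by omega
      have e' : 3 + (n + 1) = 4 + n := by omega
      rw [e] at h2
      rw [e', h2, D_add_r, D_smul_r, D_add_l, D_smul_l]
      have h3 := gpos n (by omega)
      have h4 := h.dl_nonneg hb (3 + n)
      have h5 := tau n (by omega)
      constructor
      · linarith [mul_nonneg h4 h3, h1.1]
      · linarith [mul_nonneg h4 (show 0 ≤ D X (sq C b (4 + n)) by omega), h1.2]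
  have S : ∀ n : ℕ, n ≤ 6 → D X (av C b (3 + n)) - D X a ≤ 2 ∧
      D X (sq C b (4 + n)) ≤ 1 + 2 * n ∧ D X (sq C b (3 + n)) ≤ 1 + 2 * n := by
    intro n
    induction n with
    | zero => intro _; simp [← ha, ← hX, ← hY, o3, D_self]
    | succ n ih =>
      intro hn
      obtain ⟨s1, s2, s3⟩ := ih (by omega)
      have hn' : (n : ℤ) ≤ 5 := by exact_mod_cast (by omega : n ≤ 5)
      have e : 3 + n + 1 = 4 + n := by omega
      have e' : 3 + (n + 1) = 4 + n := by omega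
      have e'' : 4 + (n + 1) = 5 + n := by omega
      have a1 := h.av_succ hb (3 + n)
      rw [e] at a1
      have o4 := h.sq1 hb (4 + n)
      have G := Gpos n (by omega)
      rw [e', e'']
      have H1 : D X (av C b (4 + n)) - D X a ≤ 2 := by
        by_contra hh
        have uu := u (4 + n) (by omega)
        obtain ⟨q, q0, q1, q2, q3⟩ := h.cross (X := X) (Y := Y) (a := a) o4 (h.avP hb (3 + n))
          (k := dl C b (3 + n)) (by rw [← a1]; exact h.avP hb _) (by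
            unfold Unb at uu
            have e0 : gm C (sq C b (4 + n)) = av C b (4 + n) := rfl
            rw [e0, a1, D_add_r, D_smul_r, D_self] at uu
            push_cast at uu
            linarith) s1 (by rw [← a1]; omega) (tau n (by omega)) (by omega) (gpos n (by omega))
          (by omega)
        exact fin q q0 q1 q2 q3
      refine ⟨H1, ?_, by push_cast; omega⟩
      by_contra hh
      push_cast at hh
      obtain ⟨f, f', f0, f1, f0', f1', hL, hR, hz⟩ :=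
        h.row2 hb (n + 1) (fun j hj => u j (by omega)) (L _ _ (by omega) (by omega))
          (L _ _ (by omega) (by omega))
      have i1 : n + 1 + 2 = 3 + n := by omega
      have i2 : n + 1 + 3 = 4 + n := by omega
      have i3 : n + 1 + 4 = 5 + n := by omega
      rw [i1, i2] at hL hz
      rw [i1, i2, i3] at hR
      have q := h.qd hb (3 + n)
      have i4 : 3 + n + 2 = 5 + n := by omega
      rw [e, i4] at q
      have sn := sneg n (by omega)
      have gp := gpos n (by omega)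
      have ta := tau n (by omega)
      have G' := Gpos (n + 1) (by omega)
      rw [e'] at G'
      have gL : -100 ≤ D (av C b (3 + n) - sq C b (3 + n) + f • sq C b (4 + n)) Y - D a Y +
          8 * (D X (av C b (3 + n) - sq C b (3 + n) + f • sq C b (4 + n)) - D X a) := by
        rw [D_add_l, D_sub_l, D_smul_l, D_add_r, D_sub_r, D_smul_r]
        linarith [mul_nonneg f0 gp, sn.1, G.1]
      by_cases h3 : 3 ≤ D X (av C b (3 + n) - sq C b (3 + n) + f • sq C b (4 + n)) - D X a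
      · refine fin _ hL h3 ?_ gL
        rw [D_add_r, D_sub_r, D_smul_r]
        linarith [mul_nonneg (sub_nonneg.2 f1) (show 0 ≤ D X (sq C b (4 + n)) by omega), sn.2]
      · obtain ⟨q, q0, q1, q2, q3⟩ := h.cross (X := X) (Y := Y) (a := a) o4 hL hR hz
          (by omega) (by
            have e5 : av C b (3 + n) - sq C b (3 + n) + f • sq C b (4 + n) +
                (dl C b (3 + n) + D (sq C b (3 + n)) (sq C b (5 + n)) - f - f') • sq C b (4 + n) =
                av C b (4 + n) + sq C b (5 + n) - f' • sq C b (4 + n) := by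
              rw [sub_smul, sub_smul, add_smul, ← q, a1]; module
            rw [e5, D_sub_r, D_add_r, D_smul_r]
            push_neg at hh
            linarith [mul_nonneg (sub_nonneg.2 f1') (show 0 ≤ D X (sq C b (4 + n)) by omega),
              G'.2]) ta (by omega) gp gL
        exact fin q q0 q1 q2 q3
  have s6 := (S 6 le_rfl).1
  have := h.sum hb X 3 3 (fun m h1 h2 => L 3 m h1 (by omega))
  rw [D_sub_r, ← ha] at this
  norm_num at s6 this
  omega

lemma Pl.quid (h : Pl F P z C) {N : ℕ} (hN : 2 * N < F.ncard) (h20 : 20 ≤ N) {x u : ℤ × ℤ}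
    (hx : x ∈ F) (hu : u ∈ F) (h1 : D x u = 1) {k : ℤ} (hk : u + k • x ∈ F) : k ≤ 300 := by
  obtain ⟨b, hb, e⟩ := h.sq_surj 3 x hx
  have hq : D (sq C b 2) (sq C b 4) ≤ 300 := by
    rcases h.unb_or hN h20 hb with h2 | h2
    · exact h.quid0 hN h20 hb h2
    · have := h.quid0 hN h20 (h.neg b hb) h2
      rw [h.sq_neg hb, h.sq_neg hb, D_neg_l, D_neg_r, neg_neg] at this
      exact this
  have c3 : C (sq C b 3) (sq C b 4) (av C b 3) := h.csq hb 3
  have c2 : C (sq C b 2) (sq C b 3) (av C b 2) := h.csq hb 2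
  have o3 : D (sq C b 3) (sq C b 4) = 1 := h.sq1 hb 3
  have o2 : D (sq C b 2) (sq C b 3) = 1 := h.sq1 hb 2
  rw [e] at c3 c2 o3 o2
  have s1 := h.sgn _ _ _ c3 _ hk
  have s2 := h.sgn _ _ _ c2 _ hu
  have d := decomp o3 u
  rw [h1, one_smul] at d
  have e1 : D (sq C b 2) u = D (sq C b 2) (sq C b 4) - D (sq C b 4) u := by
    conv_lhs => rw [d, D_sub_r, D_smul_r, o2]
    ring
  rw [D_add_r, D_add_r, D_smul_r, D_smul_r, D_self, D_anti _ x, o3, h1] at s1
  omega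

end Pool.Agent.MP_ad1a12_co

end

-- part MP_ad1a12_co.Planar3
section

namespace Pool.Agent.MP_ad1a12_co

variable {F P : Set (ℤ × ℤ)} {z : ℝ × ℝ} {C : ℤ × ℤ → ℤ × ℤ → ℤ × ℤ → Prop}

lemma Pl.up (h : Pl F P z C) {N : ℕ} (hN : 2 * N < F.ncard) (h20 : 20 ≤ N) {x p p2 : ℤ × ℤ}
    (hx : x ∈ F) (hs : ∀ m : ℤ, 0 ≤ m → m ≤ 912 → p + m • x ∈ P) (hp2 : p2 ∈ P)
    (h4 : D x p + 4 ≤ D x p2) : False := by
  have hp : p ∈ P := by simpa using hs 0 le_rfl (by omega)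
  obtain ⟨e, e2, e3, he⟩ : ∃ e : ℤ, 2 ≤ e ∧ e ≤ 3 ∧ Dr x z ≠ ((D x p + e : ℤ) : ℝ) := by
    by_cases h2 : Dr x z = ((D x p + 2 : ℤ) : ℝ)
    · refine ⟨3, by omega, le_rfl, ?_⟩
      rw [h2]; push_cast; linarith
    · exact ⟨2, le_rfl, by omega, h2⟩
  obtain ⟨w, hw, tw⟩ := h.row x hx _ he p hp p2 hp2 (by omega) (by omega)
  have o := h.nx1 hx
  set y := nx C x
  have yx : D y x = -1 := by rw [D_anti, o]
  have d := decomp o (w - p)
  rw [D_sub_r, tw, add_sub_cancel_left] at d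
  set s := -D y (w - p) with hsd
  have d' : w = p + e • y + s • x := by
    rw [hsd, neg_smul, add_assoc, ← sub_eq_add_neg, ← d]; abel
  have m0 := Int.emod_nonneg s (show e ≠ 0 by omega)
  have m1 := Int.emod_lt_of_pos s (show 0 < e by omega)
  have m2 := Int.emod_add_mul_ediv s e
  have key : ∀ r : ℤ, 0 ≤ r → r ≤ 303 →
      (s / e - r) • x + y ∈ F ∨ Dr ((s / e - r) • x + y) z = D ((s / e - r) • x + y) w := by
    intro r r0 r1
    by_cases hz : Dr ((s / e - r) • x + y) z = D ((s / e - r) • x + y) w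
    · exact Or.inr hz
    · left
      have q := hs (s % e + e * r) (by nlinarith) (by nlinarith)
      have ew : p + (s % e + e * r) • x + e • ((s / e - r) • x + y) = w := by
        rw [d']
        have : s • x = (s % e + e * (s / e)) • x := by rw [m2]
        rw [this]; module
      refine (h.dir _ q ((s / e - r) • x + y) (-x) e e2 (by rw [ew]; exact hw) ?_ ?_).1
      · rw [D_neg_r, D_add_l, D_smul_l, D_self, yx]; ring
      · have : D ((s / e - r) • x + y) (p + (s % e + e * r) • x) = D ((s / e - r) • x + y) w := by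
          rw [← ew, D_add_r _ _ (e • ((s / e - r) • x + y)), D_smul_r, D_self]; ring
        rw [this]; exact hz
  have pair : ∀ r : ℤ, 0 ≤ r → r ≤ 302 → ∃ r', r ≤ r' ∧ r' ≤ r + 1 ∧ (s / e - r') • x + y ∈ F := by
    intro r r0 r1
    rcases key r r0 (by omega) with k1 | k1
    · exact ⟨r, le_rfl, by omega, k1⟩
    rcases key (r + 1) (by omega) (by omega) with k2 | k2
    · exact ⟨r + 1, by omega, le_rfl, k2⟩
    exfalso
    refine h.two hw ?_ k1 k2
    simp only [D_add_l, D_add_r, D_smul_l, D_smul_r, D_self, o, yx]; omega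
  obtain ⟨r1, a1, a2, f1⟩ := pair 0 le_rfl (by omega)
  obtain ⟨r2, b1, b2, f2⟩ := pair 302 (by omega) le_rfl
  have := h.quid hN h20 hx f2 (by rw [D_add_r, D_smul_r, D_self, o]; ring) (k := r2 - r1)
    (by convert f1 using 1; module)
  omega

lemma Pl.pairq (h : Pl F P z C) {N : ℕ} (hN : 2 * N < F.ncard) (h20 : 20 ≤ N) {p p' : ℤ × ℤ}
    (hp : p ∈ P) (hp' : p' ∈ P) (hne : p' - p ≠ 0) (d1 : 912 ∣ (p' - p).1) (d2 : 912 ∣ (p' - p).2)
    (hz : Dr (p' - p) z ≠ D (p' - p) p) : False := by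
  set v := p' - p with hv
  have hg : 0 < Int.gcd v.1 v.2 := by
    apply Int.gcd_pos_iff.2
    by_contra hc
    push_neg at hc
    exact hne (Prod.ext hc.1 hc.2)
  obtain ⟨m, n, co, e1, e2⟩ := Int.exists_gcd_one hg
  have hk : (912 : ℤ) ≤ Int.gcd v.1 v.2 :=
    Int.le_of_dvd (by exact_mod_cast hg) (Int.dvd_coe_gcd d1 d2)
  generalize ((Int.gcd v.1 v.2 : ℕ) : ℤ) = k at hk e1 e2
  have bz := Int.gcd_eq_gcd_ab m n
  rw [co] at bz
  have hw : D (m, n) (-Int.gcdB m n, Int.gcdA m n) = 1 := by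
    unfold D; push_cast at bz; linarith
  have ev : v = k • ((m, n) : ℤ × ℤ) := by
    ext
    · simp; linarith
    · simp; linarith
  have ep : p + k • ((m, n) : ℤ × ℤ) = p' := by rw [← ev, hv]; abel
  have hz' : Dr (m, n) z ≠ D (m, n) p := by
    intro hh
    apply hz
    rw [ev, Dr_smul, D_smul_l, hh]; push_cast; ring
  set x : ℤ × ℤ := (m, n)
  have hx := (h.dir p hp x _ k (by omega) (by rw [ep]; exact hp') hw hz').1
  have st : ∀ i : ℤ, 0 ≤ i → i ≤ k → p + i • x ∈ P :=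
    fun i i0 i1 => h.str' hw hp (by rw [ep]; exact hp') hz' i0 i1
  have s := h.sum hx x 0 7 (fun m h1 h2 => h.long hN hx h1 (by omega))
  rw [D_sub_r] at s
  by_cases c : D x p + 4 ≤ D x (av C x (0 + 2 * 7))
  · exact h.up hN h20 hx (fun i i0 i1 => st i i0 (by omega)) (h.avP hx _) c
  · refine h.up hN h20 (h.neg x hx) (p := p + k • x) (fun i i0 i1 => ?_) (h.avP hx 0) ?_
    · have := st (k - i) (by omega) (by omega)
      convert this using 1; module
    · rw [D_neg_l, D_neg_l, D_add_r, D_smul_r, D_self]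
      have e2 : ((7 : ℕ) : ℤ) = 7 := rfl
      rw [e2] at s; omega

lemma three_sorted {s : Finset ℕ} (h : 2 < s.card) :
    ∃ a ∈ s, ∃ b ∈ s, ∃ c ∈ s, a < b ∧ b < c := by
  obtain ⟨a, ha, b, hb, c, hc, h1, h2, h3⟩ := Finset.two_lt_card.1 h
  rcases lt_or_gt_of_ne h1 with e1 | e1 <;> rcases lt_or_gt_of_ne h2 with e2 | e2 <;>
    rcases lt_or_gt_of_ne h3 with e3 | e3
  · exact ⟨a, ha, b, hb, c, hc, e1, e3⟩
  · exact ⟨a, ha, c, hc, b, hb, e2, e3⟩
  · omega
  · exact ⟨c, hc, a, ha, b, hb, e2, e1⟩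
  · exact ⟨b, hb, a, ha, c, hc, e1, e2⟩
  · omega
  · exact ⟨b, hb, c, hc, a, ha, e3, e2⟩
  · exact ⟨c, hc, b, hb, a, ha, e3, e1⟩

lemma Pl.small (h : Pl F P z C) (q : ℕ) (hq : q = 912) : F.ncard ≤ 2 * (4 * (q * q) + 20) := by
  by_contra hN
  push_neg at hN
  have h20 : 20 ≤ 4 * (q * q) + 20 := by omega
  have : NeZero q := ⟨by omega⟩
  obtain ⟨b, hb⟩ : F.Nonempty := Set.nonempty_of_ncard_ne_zero (by omega)
  obtain ⟨y, -, hy⟩ := Finset.exists_lt_card_fiber_of_mul_lt_card_of_maps_to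
    (s := Finset.range (2 * (q * q) + 1)) (t := (Finset.univ : Finset (ZMod q × ZMod q)))
    (f := fun i => (((av C b (2 * i)).1 : ZMod q), ((av C b (2 * i)).2 : ZMod q))) (n := 2)
    (fun _ _ => Finset.mem_univ _) (by simp [ZMod.card]; omega)
  obtain ⟨i, hi, j, hj, k, hk, ij, jk⟩ := three_sorted hy
  simp only [Finset.mem_filter, Finset.mem_range] at hi hj hk
  have dv : ∀ u v : ℤ × ℤ, ((u.1 : ZMod q), (u.2 : ZMod q)) = ((v.1 : ZMod q), (v.2 : ZMod q)) →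
      912 ∣ (v - u).1 ∧ 912 ∣ (v - u).2 := by
    intro u v e
    have e1 := (ZMod.intCast_eq_intCast_iff_dvd_sub _ _ _).1 (Prod.ext_iff.1 e).1
    have e2 := (ZMod.intCast_eq_intCast_iff_dvd_sub _ _ _).1 (Prod.ext_iff.1 e).2
    rw [hq] at e1 e2
    exact ⟨e1, e2⟩
  have d1 := dv _ _ (hi.2.trans hj.2.symm)
  have d2 := dv _ _ (hj.2.trans hk.2.symm)
  have s1 : ∀ m, 2 * j < m → m ≤ 2 * k → 1 ≤ D (av C b (2 * j) - av C b (2 * i)) (sq C b m) := by
    intro m m1 m2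
    have := h.sum hb (-sq C b m) (2 * i) (j - i) (fun l l1 l2 => by
      rw [D_neg_l, ← D_anti]
      exact h.long hN hb (by omega) (by omega))
    have e : 2 * i + 2 * (j - i) = 2 * j := by omega
    rw [e, D_neg_l, ← D_anti] at this
    have : (1 : ℤ) ≤ ((j - i : ℕ) : ℤ) := by exact_mod_cast (by omega : 1 ≤ j - i)
    omega
  have s2 := h.sum hb (av C b (2 * j) - av C b (2 * i)) (2 * j) (k - j)
    (fun m m1 m2 => s1 m m1 (by omega))
  have e : 2 * j + 2 * (k - j) = 2 * k := by omega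
  rw [e] at s2
  have s3 : (1 : ℤ) ≤ ((k - j : ℕ) : ℤ) := by exact_mod_cast (by omega : 1 ≤ k - j)
  have pi := h.avP hb (2 * i)
  have pj := h.avP hb (2 * j)
  have pk := h.avP hb (2 * k)
  generalize av C b (2 * i) = p1 at *
  generalize av C b (2 * j) = p2 at *
  generalize av C b (2 * k) = p3 at *
  have n1 : p2 - p1 ≠ 0 := by intro e; rw [e] at s2; simp [D] at s2; omega
  have n2 : p3 - p2 ≠ 0 := by intro e; rw [e] at s2; simp [D] at s2; omega
  by_cases z1 : Dr (p2 - p1) z = D (p2 - p1) p1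
  · by_cases z2 : Dr (p3 - p2) z = D (p3 - p2) p2
    · refine h.two pj (x := p2 - p1) (y := p3 - p2) (by omega) ?_ z2
      rw [z1]; congr 1; simp [D]; ring
    · exact h.pairq hN h20 pj pk n2 d2.1 d2.2 z2
  · exact h.pairq hN h20 pi pj n1 d1.1 d1.2 z1

lemma Pl.qle (h : Pl F P z C) {b : ℤ × ℤ} (hb : b ∈ F) (m : ℕ) :
    0 ≤ D (sq C b m) (sq C b (m + 2)) ∧ D (sq C b m) (sq C b (m + 2)) ≤ F.ncard := by
  have o1 := h.sq1 hb m
  have o2 : D (sq C b (m + 1)) (sq C b (m + 2)) = 1 := h.sq1 hb (m + 1)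
  have c0 : 0 ≤ D (sq C b m) (sq C b (m + 2)) := by
    have := h.sgn _ _ _ (h.csq hb m) _ (h.sqF hb (m + 2))
    omega
  refine ⟨c0, ?_⟩
  have q := h.qd hb m
  set c := D (sq C b m) (sq C b (m + 2))
  obtain ⟨n, hn⟩ := Int.eq_ofNat_of_zero_le c0
  have hs : ∀ j : ℕ, j ≤ n → -sq C b m + (j : ℤ) • sq C b (m + 1) ∈ F := by
    intro j hj
    refine h.strF' (h.sqF hb (m + 1)) (h.neg _ (h.sqF hb m)) (k := c) ?_ ?_ (by omega) (by omega)
    · rw [D_neg_r, ← D_anti, o1]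
    · rw [← q]; simpa using h.sqF hb (m + 2)
  have hsub : ↑((Finset.range (n + 1)).image
      (fun j : ℕ => -sq C b m + (j : ℤ) • sq C b (m + 1))) ⊆ F := by
    intro u hu
    simp only [Finset.coe_image, Finset.coe_range, Set.mem_image, Set.mem_Iio] at hu
    obtain ⟨j, hj, rfl⟩ := hu
    exact hs j (by omega)
  have h6 := Set.ncard_le_ncard hsub h.fin
  rw [Set.ncard_coe_finset, Finset.card_image_of_injective, Finset.card_range] at h6
  · omega
  · intro i j e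
    have := congrArg (D (sq C b m)) e
    simp only [D_add_r, D_smul_r, o1] at this
    omega

lemma Pl.dbound (h : Pl F P z C) {b : ℤ × ℤ} (hb : b ∈ F) (m : ℕ) :
    |D b (sq C b m)| ≤ ((F.ncard : ℤ) + 1) ^ m ∧
      |D b (sq C b (m + 1))| ≤ ((F.ncard : ℤ) + 1) ^ (m + 1) := by
  induction m with
  | zero =>
    have := h.sq1 hb 0
    rw [sq_zero] at this
    simp only [sq_zero, D_self, this]
    constructor
    · simp
    · simp
  | succ m ih =>
    refine ⟨ih.2, ?_⟩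
    have q := congrArg (D b) (h.qd hb m)
    rw [D_add_r, D_smul_r] at q
    obtain ⟨c0, c1⟩ := h.qle hb m
    have e : m + 1 + 1 = m + 2 := rfl
    rw [e]
    set c := D (sq C b m) (sq C b (m + 2))
    have e2 : D b (sq C b (m + 2)) = c * D b (sq C b (m + 1)) - D b (sq C b m) := by linarith
    rw [e2]
    have h1 := abs_sub (c * D b (sq C b (m + 1))) (D b (sq C b m))
    rw [abs_mul, abs_of_nonneg c0] at h1
    have n0 : (0 : ℤ) ≤ F.ncard := by positivity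
    have p0 : (0 : ℤ) ≤ ((F.ncard : ℤ) + 1) ^ m := by positivity
    have h2 := mul_le_mul c1 ih.2 (abs_nonneg _) n0
    have h3 := ih.1
    rw [pow_succ] at h2
    rw [pow_succ, pow_succ]
    nlinarith [mul_nonneg p0 n0]

lemma Pl.meets (h : Pl F P z C) {b u : ℤ × ℤ} (hb : b ∈ F) (hu : u ∈ F) (hp : 0 < D b u) :
    ∃ j, j ≤ F.ncard ∧ u = sq C b j := by
  by_contra hc
  push_neg at hc
  have st : ∀ j ≤ F.ncard, 0 < D (sq C b j) u :=
    fun j hj => h.stay hb hu hp j (fun i hi => hc i (by omega))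
  have mono : ∀ j k, j + (k + 1) ≤ F.ncard → 0 < D (sq C b j) (sq C b (j + (k + 1))) := by
    intro j k
    induction k with
    | zero => intro _; have := h.sq1 hb j; simp only [zero_add]; omega
    | succ k ih =>
      intro hk
      have h1 := ih (by omega)
      have h2 := h.sq1 hb (j + (k + 1))
      have h3 := D_pl (sq C b j) (sq C b (j + (k + 1))) (sq C b (j + (k + 1) + 1)) u
      have h4 := st j (by omega)
      have h5 := st (j + (k + 1)) (by omega)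
      have h6 := st (j + (k + 1) + 1) (by omega)
      have e : j + (k + 1 + 1) = j + (k + 1) + 1 := rfl
      rw [e]
      rw [h2] at h3
      by_contra h7
      push_neg at h7
      nlinarith [mul_pos h1 h6, mul_nonneg (neg_nonneg.2 h7) h5.le]
  have hsub : ↑((Finset.range (F.ncard + 1)).image (fun j : ℕ => sq C b j)) ⊆ F := by
    intro u hu
    simp only [Finset.coe_image, Finset.coe_range, Set.mem_image, Set.mem_Iio] at hu
    obtain ⟨j, hj, rfl⟩ := hu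
    exact h.sqF hb j
  have h6 := Set.ncard_le_ncard hsub h.fin
  rw [Set.ncard_coe_finset, Finset.card_image_of_injOn, Finset.card_range] at h6
  · omega
  · intro i hi j hj e
    simp only [Finset.coe_range, Set.mem_Iio] at hi hj
    by_contra hne
    rcases lt_or_gt_of_ne hne with l | l
    · obtain ⟨k, rfl⟩ : ∃ k, j = i + (k + 1) := ⟨j - i - 1, by omega⟩
      have := mono i k (by omega)
      simp only at e
      rw [← e, D_self] at this; omega
    · obtain ⟨k, rfl⟩ : ∃ k, i = j + (k + 1) := ⟨i - j - 1, by omega⟩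
      have := mono j k (by omega)
      simp only at e
      rw [e, D_self] at this; omega

theorem planar_bound : ∃ Q : ℕ, 0 < Q ∧ ∀ (F P : Set (ℤ × ℤ)) (z : ℝ × ℝ)
    (C : ℤ × ℤ → ℤ × ℤ → ℤ × ℤ → Prop), Pl F P z C → ∀ u ∈ F, ∀ v ∈ F, |D u v| < Q := by
  obtain ⟨n, hn⟩ : ∃ n : ℕ, ∀ (F P : Set (ℤ × ℤ)) (z : ℝ × ℝ)
      (C : ℤ × ℤ → ℤ × ℤ → ℤ × ℤ → Prop), Pl F P z C → F.ncard ≤ n :=
    ⟨_, fun F P z C h => h.small 912 rfl⟩
  refine ⟨(n + 1) ^ n + 1, by omega, ?_⟩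
  intro F P z C h
  have key : ∀ u ∈ F, ∀ v ∈ F, 0 < D u v → |D u v| < (((n + 1) ^ n + 1 : ℕ) : ℤ) := by
    intro u hu v hv hp
    obtain ⟨j, hj, e⟩ := h.meets hu hv hp
    have h1 := (h.dbound hu j).1
    rw [← e] at h1
    have h2 := hn F P z C h
    have h3 : (F.ncard + 1) ^ j ≤ (n + 1) ^ n :=
      le_trans (Nat.pow_le_pow_left (by omega) j) (Nat.pow_le_pow_right (by omega) (by omega))
    have h4 : ((F.ncard : ℤ) + 1) ^ j ≤ ((n : ℤ) + 1) ^ n := by exact_mod_cast h3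
    push_cast
    omega
  intro u hu v hv
  rcases lt_trichotomy (D u v) 0 with l | l | l
  · have := key u hu (-v) (h.neg v hv) (by rw [D_neg_r]; omega)
    rwa [D_neg_r, abs_neg] at this
  · rw [l]; simp only [abs_zero]; positivity
  · exact key u hu v hv l

end Pool.Agent.MP_ad1a12_co

end

-- part MP_ad1a12_co.Core
section

namespace Pool.Agent.MP_ad1a12_co

abbrev W := (ℤ × ℤ) × ℤ

def dt (y r : W) : ℤ := y.1.1 * r.1.1 + y.1.2 * r.1.2 + y.2 * r.2
def dz (y : W) (z : ℝ × ℝ) : ℝ := y.1.1 * z.1 + y.1.2 * z.2 + y.2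
def det3 (a b c : W) : ℤ := D a.1 b.1 * c.2 - D a.1 c.1 * b.2 + D b.1 c.1 * a.2

def Lex3 (y1 y2 y3 r : W) : Prop :=
  0 < dt y1 r ∨ (dt y1 r = 0 ∧ (0 < dt y2 r ∨ (dt y2 r = 0 ∧ 0 < dt y3 r)))

def Sgn (i j k : ℤ) : Prop := (0 ≤ i ∧ 0 ≤ j ∧ 0 ≤ k) ∨ (i ≤ 0 ∧ j ≤ 0 ∧ k ≤ 0)

def Irr (R : Set W) (a b c : W) : Prop :=
  ∃ i j : ℤ, i ≠ 0 ∧ j ≠ 0 ∧ (i • a + j • b ∈ R ∨ i • a + j • c ∈ R)

structure Sys (R : Set W) (z : ℝ × ℝ) (a b c : W) : Prop where
  ma : a ∈ R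
  mb : b ∈ R
  mc : c ∈ R
  gen : ∀ r ∈ R, ∃ i j k : ℤ, r = i • a + j • b + k • c ∧ Sgn i j k
  cone : ∃ l m n : ℝ, 0 ≤ l ∧ 0 ≤ m ∧ 0 ≤ n ∧ z.1 = l * a.1.1 + m * b.1.1 + n * c.1.1 ∧
    z.2 = l * a.1.2 + m * b.1.2 + n * c.1.2 ∧ (1 : ℝ) = l * a.2 + m * b.2 + n * c.2
  ia : Irr R a b c
  ib : Irr R b a c
  ic : Irr R c a b

structure Core (R : Set W) (z : ℝ × ℝ) : Prop where
  neg : ∀ r ∈ R, -r ∈ R
  red : ∀ r ∈ R, ∀ n : ℤ, n • r ∈ R → n = 1 ∨ n = -1
  e1 : (((1, 0), 0) : W) ∈ R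
  e2 : (((0, 1), 0) : W) ∈ R
  e3 : (((0, 0), 1) : W) ∈ R
  np : ∀ p : ℤ × ℤ, ((p, 1) : W) ∈ R → ¬ (z.1 = p.1 ∧ z.2 = p.2)
  fin : {u : ℤ × ℤ | ((u, 0) : W) ∈ R}.Finite
  flag : ∀ y1 y2 y3 : W, (∀ r, dt y1 r = 0 → dt y2 r = 0 → dt y3 r = 0 → r = 0) →
    0 < dz y1 z → ∃ a b c, Sys R z a b c ∧ Lex3 y1 y2 y3 a ∧ Lex3 y1 y2 y3 b ∧ Lex3 y1 y2 y3 c

variable {R : Set W} {z : ℝ × ℝ}

lemma dt_comb (y a b c : W) (i j k : ℤ) :
    dt y (i • a + j • b + k • c) = i * dt y a + j * dt y b + k * dt y c := by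
  simp [dt]; ring
lemma dt_add (y a b : W) : dt y (a + b) = dt y a + dt y b := by simp [dt]; ring
lemma dt_smul (y a : W) (i : ℤ) : dt y (i • a) = i * dt y a := by simp [dt]; ring
lemma dt_sub_l (y y' a : W) : dt (y - y') a = dt y a - dt y' a := by simp [dt]; ring

lemma Irr.swap {a b c : W} (h : Irr R a b c) : Irr R a c b := by
  obtain ⟨i, j, h1, h2, h3⟩ := h
  exact ⟨i, j, h1, h2, h3.symm⟩

lemma Sys.s12 {a b c : W} (h : Sys R z a b c) : Sys R z b a c where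
  ma := h.mb
  mb := h.ma
  mc := h.mc
  gen := fun r hr => by
    obtain ⟨i, j, k, e, s⟩ := h.gen r hr
    exact ⟨j, i, k, by rw [e]; abel, by unfold Sgn at *; tauto⟩
  cone := by
    obtain ⟨l, m, n, h1, h2, h3, h4, h5, h6⟩ := h.cone
    exact ⟨m, l, n, h2, h1, h3, by linarith, by linarith, by linarith⟩
  ia := h.ib
  ib := h.ia
  ic := h.ic.swap

lemma Sys.s23 {a b c : W} (h : Sys R z a b c) : Sys R z a c b where
  ma := h.ma
  mb := h.mc
  mc := h.mb
  gen := fun r hr => by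
    obtain ⟨i, j, k, e, s⟩ := h.gen r hr
    exact ⟨i, k, j, by rw [e]; abel, by unfold Sgn at *; tauto⟩
  cone := by
    obtain ⟨l, m, n, h1, h2, h3, h4, h5, h6⟩ := h.cone
    exact ⟨l, n, m, h1, h3, h2, by linarith, by linarith, by linarith⟩
  ia := h.ia.swap
  ib := h.ic
  ic := h.ib

lemma det3_comb (a b c : W) (i j k i' j' k' i'' j'' k'' : ℤ) :
    det3 (i • a + j • b + k • c) (i' • a + j' • b + k' • c) (i'' • a + j'' • b + k'' • c) =
      det3 ((i, j), k) ((i', j'), k') ((i'', j''), k'') * det3 a b c := by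
  simp [det3, D]; ring

lemma Core.det (h : Core R z) {a b c : W} (s : Sys R z a b c) : ∃ u, u * det3 a b c = 1 := by
  obtain ⟨i, j, k, e, -⟩ := s.gen _ h.e1
  obtain ⟨i', j', k', e', -⟩ := s.gen _ h.e2
  obtain ⟨i'', j'', k'', e'', -⟩ := s.gen _ h.e3
  refine ⟨det3 ((i, j), k) ((i', j'), k') ((i'', j''), k''), ?_⟩
  rw [← det3_comb a b c i j k i' j' k' i'' j'' k'', ← e, ← e', ← e'']
  simp [det3, D]

lemma Core.unit (h : Core R z) {x b c : W} {m : ℤ} (s : Sys R z (m • x) b c) (hm : 0 < m) :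
    x ∈ R := by
  obtain ⟨u, hu⟩ := h.det s
  have : m * (u * det3 x b c) = 1 := by
    rw [← hu]; simp [det3, D]; ring
  have e := Int.eq_one_of_mul_eq_one_right hm.le this
  have := s.ma
  rwa [e, one_smul] at this

lemma Core.nz (h : Core R z) : (0 : W) ∉ R := by
  intro h0
  have := h.red 0 h0 2 (by simpa using h0)
  omega

lemma sum0 {x y w : ℤ} (h : Sgn x y w) (e : x + y + w = 0) : x = 0 ∧ y = 0 ∧ w = 0 := by
  unfold Sgn at h; omega

lemma Sgn.mul {i j k a b c : ℤ} (s : Sgn i j k) (ha : i ≠ 0 → 0 ≤ a) (hb : j ≠ 0 → 0 ≤ b)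
    (hc : k ≠ 0 → 0 ≤ c) : Sgn (i * a) (j * b) (k * c) := by
  have p : ∀ i a : ℤ, (i ≠ 0 → 0 ≤ a) → 0 ≤ i → 0 ≤ i * a := by
    intro i a h1 h2
    by_cases h : i = 0
    · simp [h]
    · exact mul_nonneg h2 (h1 h)
  have q : ∀ i a : ℤ, (i ≠ 0 → 0 ≤ a) → i ≤ 0 → i * a ≤ 0 := by
    intro i a h1 h2
    by_cases h : i = 0
    · simp [h]
    · exact mul_nonpos_of_nonpos_of_nonneg h2 (h1 h)
  rcases s with s | s
  · exact Or.inl ⟨p _ _ ha s.1, p _ _ hb s.2.1, p _ _ hc s.2.2⟩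
  · exact Or.inr ⟨q _ _ ha s.1, q _ _ hb s.2.1, q _ _ hc s.2.2⟩

lemma Lex3.n1 {y1 y2 y3 r : W} (h : Lex3 y1 y2 y3 r) : 0 ≤ dt y1 r := by
  unfold Lex3 at h; omega

lemma coef1 {y1 y2 y3 a b c : W} (la : Lex3 y1 y2 y3 a) (lb : Lex3 y1 y2 y3 b)
    (lc : Lex3 y1 y2 y3 c) {i j k : ℤ} (s : Sgn i j k) (e : dt y1 (i • a + j • b + k • c) = 0) :
    i * dt y1 a = 0 ∧ j * dt y1 b = 0 ∧ k * dt y1 c = 0 := by
  rw [dt_comb] at e
  exact sum0 (s.mul (fun _ => la.n1) (fun _ => lb.n1) (fun _ => lc.n1)) e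

lemma coef2 {y1 y2 y3 a b c : W} (la : Lex3 y1 y2 y3 a) (lb : Lex3 y1 y2 y3 b)
    (lc : Lex3 y1 y2 y3 c) {i j k : ℤ} (s : Sgn i j k) (e : dt y1 (i • a + j • b + k • c) = 0)
    (e2 : dt y2 (i • a + j • b + k • c) = 0) :
    i * dt y2 a = 0 ∧ j * dt y2 b = 0 ∧ k * dt y2 c = 0 := by
  obtain ⟨h1, h2, h3⟩ := coef1 la lb lc s e
  rw [dt_comb] at e2
  have p : ∀ (i : ℤ) (a : W), Lex3 y1 y2 y3 a → i * dt y1 a = 0 → i ≠ 0 → 0 ≤ dt y2 a := by
    intro i a l h hi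
    have := (mul_eq_zero.1 h).resolve_left hi
    unfold Lex3 at l; omega
  exact sum0 (s.mul (p _ _ la h1) (p _ _ lb h2) (p _ _ lc h3)) e2

lemma Core.sort0a (h : Core R z) {y1 y2 y3 : W}
    (nd : ∀ r, dt y1 r = 0 → dt y2 r = 0 → dt y3 r = 0 → r = 0) {a b c : W} (s : Sys R z a b c)
    (lb : Lex3 y1 y2 y3 b) (ta : dt y1 a = 0 ∧ dt y2 a = 0) : ¬ (dt y1 b = 0 ∧ dt y2 b = 0) := by
  intro tb
  have b3 : 0 < dt y3 b := by unfold Lex3 at lb; omega
  have e := nd (dt y3 b • a + (-dt y3 a) • b) (by rw [dt_add, dt_smul, dt_smul, ta.1, tb.1]; ring)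
    (by rw [dt_add, dt_smul, dt_smul, ta.2, tb.2]; ring) (by rw [dt_add, dt_smul, dt_smul]; ring)
  obtain ⟨u, hu⟩ := h.det s
  have e2 : det3 (dt y3 b • a + (-dt y3 a) • b) b c = dt y3 b * det3 a b c := by
    simp [det3, D]; ring
  rw [e] at e2
  have e3 : det3 0 b c = 0 := by simp [det3, D]
  rw [e3] at e2
  have : dt y3 b * (u * det3 a b c) = 0 := by linear_combination (-u) * e2
  rw [hu] at this; omega

lemma Core.sort0b (h : Core R z) {y1 y2 y3 : W}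
    (nd : ∀ r, dt y1 r = 0 → dt y2 r = 0 → dt y3 r = 0 → r = 0) {a b c : W} (s : Sys R z a b c)
    (la : Lex3 y1 y2 y3 a) (lb : Lex3 y1 y2 y3 b) (lc : Lex3 y1 y2 y3 c)
    (ta : dt y1 a = 0 ∧ dt y2 a = 0) {r : W} (hr : r ∈ R) (r1 : dt y1 r = 0) (r2 : dt y2 r = 0)
    (r3 : 0 < dt y3 r) : ∃ b c, Sys R z r b c ∧ Lex3 y1 y2 y3 b ∧ Lex3 y1 y2 y3 c ∧
      ¬ (dt y1 b = 0 ∧ dt y2 b = 0) ∧ ¬ (dt y1 c = 0 ∧ dt y2 c = 0) := by
  have nb := h.sort0a nd s lb ta
  have nc := h.sort0a nd s.s23 lc ta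
  obtain ⟨i, j, k, e, sg⟩ := s.gen r hr
  rw [e] at r1 r2
  obtain ⟨-, h2, h3⟩ := coef1 la lb lc sg r1
  obtain ⟨-, h5, h6⟩ := coef2 la lb lc sg r1 r2
  have j0 : j = 0 := by
    by_contra hj
    exact nb ⟨(mul_eq_zero.1 h2).resolve_left hj, (mul_eq_zero.1 h5).resolve_left hj⟩
  have k0 : k = 0 := by
    by_contra hj
    exact nc ⟨(mul_eq_zero.1 h3).resolve_left hj, (mul_eq_zero.1 h6).resolve_left hj⟩
  rw [j0, k0, zero_smul, zero_smul, add_zero, add_zero] at e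
  have a3 : 0 < dt y3 a := by unfold Lex3 at la; omega
  rcases h.red a s.ma i (by rw [← e]; exact hr) with hi | hi
  · rw [hi, one_smul] at e
    rw [e]; exact ⟨b, c, s, lb, lc, nb, nc⟩
  · rw [e, dt_smul, hi] at r3; omega

lemma Core.sort0 (h : Core R z) {y1 y2 y3 : W}
    (nd : ∀ r, dt y1 r = 0 → dt y2 r = 0 → dt y3 r = 0 → r = 0) (hy : 0 < dz y1 z)
    {r : W} (hr : r ∈ R) (r1 : dt y1 r = 0) (r2 : dt y2 r = 0)
    (r3 : 0 < dt y3 r) : ∃ b c, Sys R z r b c ∧ Lex3 y1 y2 y3 b ∧ Lex3 y1 y2 y3 c ∧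
      ¬ (dt y1 b = 0 ∧ dt y2 b = 0) ∧ ¬ (dt y1 c = 0 ∧ dt y2 c = 0) := by
  obtain ⟨a, b, c, s, la, lb, lc⟩ := h.flag y1 y2 y3 nd hy
  by_cases ta : dt y1 a = 0 ∧ dt y2 a = 0
  · exact h.sort0b nd s la lb lc ta hr r1 r2 r3
  by_cases tb : dt y1 b = 0 ∧ dt y2 b = 0
  · exact h.sort0b nd s.s12 lb la lc tb hr r1 r2 r3
  by_cases tc : dt y1 c = 0 ∧ dt y2 c = 0
  · exact h.sort0b nd s.s23.s12 lc la lb tc hr r1 r2 r3
  exfalso
  obtain ⟨i, j, k, e, sg⟩ := s.gen r hr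
  rw [e] at r1 r2
  obtain ⟨h1, h2, h3⟩ := coef1 la lb lc sg r1
  obtain ⟨h4, h5, h6⟩ := coef2 la lb lc sg r1 r2
  have i0 : i = 0 := by
    by_contra hj
    exact ta ⟨(mul_eq_zero.1 h1).resolve_left hj, (mul_eq_zero.1 h4).resolve_left hj⟩
  have j0 : j = 0 := by
    by_contra hj
    exact tb ⟨(mul_eq_zero.1 h2).resolve_left hj, (mul_eq_zero.1 h5).resolve_left hj⟩
  have k0 : k = 0 := by
    by_contra hj
    exact tc ⟨(mul_eq_zero.1 h3).resolve_left hj, (mul_eq_zero.1 h6).resolve_left hj⟩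
  rw [e, dt_comb, i0, j0, k0] at r3
  omega

lemma sort1a {y1 y2 y3 a b c : W} (s : Sys R z a b c)
    (la : Lex3 y1 y2 y3 a) (lb : Lex3 y1 y2 y3 b) (lc : Lex3 y1 y2 y3 c) {u v w : W} (hu : u ∈ R)
    (hv : v ∈ R) (u1 : dt y1 u = 0) (v1 : dt y1 v = 0) (hw : det3 u v w ≠ 0)
    (pb : dt y1 b ≠ 0) (pc : dt y1 c ≠ 0) : False := by
  obtain ⟨i, j, k, e, sg⟩ := s.gen u hu
  obtain ⟨i', j', k', e', sg'⟩ := s.gen v hv
  rw [e] at u1
  rw [e'] at v1
  obtain ⟨-, h2, h3⟩ := coef1 la lb lc sg u1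
  obtain ⟨-, h5, h6⟩ := coef1 la lb lc sg' v1
  apply hw
  rw [e, e', (mul_eq_zero.1 h2).resolve_right pb, (mul_eq_zero.1 h3).resolve_right pc,
    (mul_eq_zero.1 h5).resolve_right pb, (mul_eq_zero.1 h6).resolve_right pc]
  simp [det3, D]; ring

lemma Core.sort1 (h : Core R z) {y1 y2 y3 : W}
    (nd : ∀ r, dt y1 r = 0 → dt y2 r = 0 → dt y3 r = 0 → r = 0) (hy : 0 < dz y1 z)
    {u v w : W} (hu : u ∈ R) (hv : v ∈ R) (u1 : dt y1 u = 0) (v1 : dt y1 v = 0)
    (hw : det3 u v w ≠ 0) : ∃ a b c, Sys R z a b c ∧ Lex3 y1 y2 y3 a ∧ Lex3 y1 y2 y3 b ∧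
      dt y1 a = 0 ∧ dt y1 b = 0 ∧ dt y1 c ≠ 0 := by
  obtain ⟨a, b, c, s, la, lb, lc⟩ := h.flag y1 y2 y3 nd hy
  by_cases ta : dt y1 a = 0 <;> by_cases tb : dt y1 b = 0 <;> by_cases tc : dt y1 c = 0
  · exfalso
    obtain ⟨l, m, n, -, -, -, h4, h5, h6⟩ := s.cone
    have : dz y1 z = l * dt y1 a + m * dt y1 b + n * dt y1 c := by
      unfold dz dt; push_cast
      linear_combination (y1.1.1 : ℝ) * h4 + (y1.1.2 : ℝ) * h5 + (y1.2 : ℝ) * h6
    rw [ta, tb, tc] at this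
    simp at this; linarith
  · exact ⟨a, b, c, s, la, lb, ta, tb, tc⟩
  · exact ⟨a, c, b, s.s23, la, lc, ta, tc, tb⟩
  · exact (sort1a s la lb lc hu hv u1 v1 hw tb tc).elim
  · exact ⟨b, c, a, s.s12.s23, lb, lc, tb, tc, ta⟩
  · exact (sort1a s.s12 lb la lc hu hv u1 v1 hw ta tc).elim
  · exact (sort1a s.s23.s12 lc la lb hu hv u1 v1 hw ta tb).elim
  · exact (sort1a s la lb lc hu hv u1 v1 hw tb tc).elim

/-- a root in the kernel of `y` is a combination of the two simple roots in the kernel -/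
lemma Sys.loc {y a b c : W} (s : Sys R z a b c) (ta : dt y a = 0) (tb : dt y b = 0)
    (tc : dt y c ≠ 0) {r : W} (hr : r ∈ R) (r1 : dt y r = 0) :
    ∃ i j : ℤ, r = i • a + j • b ∧ ((0 ≤ i ∧ 0 ≤ j) ∨ (i ≤ 0 ∧ j ≤ 0)) := by
  obtain ⟨i, j, k, e, sg⟩ := s.gen r hr
  rw [e, dt_comb, ta, tb] at r1
  have k0 : k = 0 := by
    have : k * dt y c = 0 := by linarith
    exact (mul_eq_zero.1 this).resolve_right tc
  rw [k0, zero_smul, add_zero] at e
  refine ⟨i, j, e, ?_⟩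
  unfold Sgn at sg; omega

lemma one_of {i j p q : ℤ} (s : (0 ≤ i ∧ 0 ≤ j) ∨ (i ≤ 0 ∧ j ≤ 0)) (hp : 0 < p) (hq : 0 < q)
    (e : i * p + j * q = 1) : (i = 1 ∧ j = 0) ∨ (i = 0 ∧ j = 1) := by
  rcases s with s | s
  · have h1 : i ≤ i * p := by nlinarith
    have h2 : j ≤ j * q := by nlinarith
    by_cases hi : i = 0
    · right; refine ⟨hi, ?_⟩
      by_contra hj
      have : j = 0 := by omega
      rw [hi, this] at e; omega
    · left; omega
  · exfalso; nlinarith [mul_nonneg (neg_nonneg.2 s.1) hp.le, mul_nonneg (neg_nonneg.2 s.2) hq.le]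

lemma str3a {y f g a b c p : W} {k : ℤ} (s : Sys R z a b c) (ta : dt y a = 0) (tb : dt y b = 0)
    (tc : dt y c ≠ 0) (hk : 2 ≤ k) (hp : p ∈ R) (hpk : p + k • a ∈ R) (yp : dt y p = 0)
    (fa : dt f a = 1) (fp : dt f p = 0) (ga : dt g a = 0) (gp : dt g p = 1)
    (pb : 0 < dt f b - dt g b) : False := by
  obtain ⟨i, j, e, sg⟩ := s.loc ta tb tc hp yp
  obtain ⟨i', j', e', sg'⟩ := s.loc ta tb tc hpk (by rw [dt_add, dt_smul, yp, ta]; ring)
  have f1 := congrArg (dt f) e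
  have g1 := congrArg (dt g) e
  have f2 := congrArg (dt f) e'
  have g2 := congrArg (dt g) e'
  simp only [dt_add, dt_smul, fa, fp, ga, gp] at f1 g1 f2 g2
  have j1 : j ≤ 0 := by
    by_contra hj
    have : 0 ≤ i := by omega
    nlinarith
  have j2 : 0 ≤ j' := by
    by_contra hj
    have : i' ≤ 0 := by omega
    nlinarith
  have e3 : j = j' := by linear_combination j * g2 - j' * g1
  have e4 : j = 0 := by omega
  rw [e4] at g1; omega

lemma Core.str3 (h : Core R z) {y f g a p w : W} {k : ℤ} (hy : 0 < dz y z) (hk : 2 ≤ k)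
    (ha : a ∈ R) (hp : p ∈ R) (hpk : p + k • a ∈ R) (ya : dt y a = 0) (yp : dt y p = 0)
    (fa : dt f a = 1) (fp : dt f p = 0) (ga : dt g a = 0) (gp : dt g p = 1)
    (sp : ∀ r, dt y r = 0 → r = dt f r • a + dt g r • p) (hw : det3 a p w ≠ 0) : p + a ∈ R := by
  obtain ⟨a1, a2, c, s, l1, l2, t1, t2, tc⟩ := h.sort1 (y1 := y) (y2 := f - g) (y3 := g)
    (fun r r1 r2 r3 => by
      rw [dt_sub_l, r3, sub_zero] at r2
      rw [sp r r1, r2, r3]; simp) hy ha hp ya yp hw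
  have key : ∀ a1 a2 : W, Sys R z a1 a2 c → Lex3 y (f - g) g a1 → dt y a1 = 0 →
      p + a ∈ R ∨ 0 < dt f a1 - dt g a1 := by
    intro a1 a2 s l t
    unfold Lex3 at l
    rw [dt_sub_l] at l
    by_cases h0 : 0 < dt f a1 - dt g a1
    · exact Or.inr h0
    · left
      have e := sp a1 t
      have e1 : dt f a1 = dt g a1 := by omega
      have e2 : a1 = dt g a1 • (p + a) := by rw [smul_add, add_comm]; rw [e1] at e; exact e
      rw [e2] at s
      exact h.unit s (by omega)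
  rcases key a1 a2 s l1 t1 with k1 | k1
  · exact k1
  rcases key a2 a1 s.s12 l2 t2 with k2 | k2
  · exact k2
  exfalso
  obtain ⟨i, j, e, sg⟩ := s.loc t1 t2 tc ha ya
  have f1 := congrArg (dt f) e
  have g1 := congrArg (dt g) e
  simp only [dt_add, dt_smul, fa, ga] at f1 g1
  rcases one_of sg k1 k2 (by linarith) with o | o
  · rw [o.1, o.2, one_smul, zero_smul, add_zero] at e
    rw [← e] at s
    exact str3a s ya t2 tc hk hp hpk yp fa fp ga gp k2
  · rw [o.1, o.2, one_smul, zero_smul, zero_add] at e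
    rw [← e] at s
    exact str3a s.s12 ya t1 tc hk hp hpk yp fa fp ga gp k1

lemma Core.dir3 (h : Core R z) {y f g a p w : W} {k : ℤ} (hy : 0 < dz y z) (hk : 2 ≤ k)
    (hp : p ∈ R) (hpk : p + k • a ∈ R) (ya : dt y a = 0) (yp : dt y p = 0)
    (fa : dt f a = 1) (ga : dt g a = 0) (gp : dt g p = 1)
    (sp : ∀ r, dt y r = 0 → r = dt f r • a + dt g r • p) (hw : det3 a p w ≠ 0) : a ∈ R := by
  have ypk : dt y (p + k • a) = 0 := by rw [dt_add, dt_smul, yp, ya]; ring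
  have gpk : dt g (p + k • a) = 1 := by rw [dt_add, dt_smul, gp, ga]; ring
  obtain ⟨a1, a2, c, s, l1, l2, t1, t2, tc⟩ := h.sort1 (y1 := y) (y2 := g) (y3 := f) (w := w)
    (fun r r1 r2 r3 => by rw [sp r r1, r2, r3]; simp) hy hp hpk yp ypk (by
      have : det3 p (p + k • a) w = -k * det3 a p w := by simp [det3, D]; ring
      rw [this]; exact mul_ne_zero (by omega) hw)
  have key : ∀ a1 a2 : W, Sys R z a1 a2 c → Lex3 y g f a1 → dt y a1 = 0 →
      a ∈ R ∨ 0 < dt g a1 := by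
    intro a1 a2 s l t
    unfold Lex3 at l
    by_cases h0 : 0 < dt g a1
    · exact Or.inr h0
    · left
      have e := sp a1 t
      have e1 : dt g a1 = 0 := by omega
      rw [e1, zero_smul, add_zero] at e
      rw [e] at s
      exact h.unit s (by omega)
  rcases key a1 a2 s l1 t1 with k1 | k1
  · exact k1
  rcases key a2 a1 s.s12 l2 t2 with k2 | k2
  · exact k2
  exfalso
  obtain ⟨i, j, e, sg⟩ := s.loc t1 t2 tc hp yp
  obtain ⟨i', j', e', sg'⟩ := s.loc t1 t2 tc hpk ypk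
  have g1 := congrArg (dt g) e
  have g2 := congrArg (dt g) e'
  rw [gp, dt_add, dt_smul, dt_smul] at g1
  rw [gpk, dt_add, dt_smul, dt_smul] at g2
  have ne : p + k • a ≠ p := by
    intro e
    have := congrArg (dt f) e
    rw [dt_add, dt_smul, fa] at this; omega
  obtain ⟨u, hu⟩ := h.det s
  rcases one_of sg k1 k2 g1.symm with o | o <;> rcases one_of sg' k1 k2 g2.symm with o' | o' <;>
    simp only [o.1, o.2, o'.1, o'.2, one_smul, zero_smul, add_zero, zero_add] at e e'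
  · exact ne (e'.trans e.symm)
  · rw [← e, ← e'] at hu
    have : k * (u * det3 p a c) = 1 := by rw [← hu]; simp [det3, D]; ring
    have := Int.eq_one_of_mul_eq_one_right (by omega) this
    omega
  · rw [← e, ← e'] at hu
    have : k * (u * det3 a p c) = 1 := by rw [← hu]; simp [det3, D]; ring
    have := Int.eq_one_of_mul_eq_one_right (by omega) this
    omega
  · exact ne (e'.trans e.symm)

end Pool.Agent.MP_ad1a12_co

end

-- part MP_ad1a12_co.Core2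
section

namespace Pool.Agent.MP_ad1a12_co

variable {R : Set W} {z : ℝ × ℝ}

def Ch (R : Set W) (z : ℝ × ℝ) (b b' g : ℤ × ℤ) : Prop :=
  ((b', 0) : W) ∈ R ∧ ((g, 1) : W) ∈ R ∧ D b b' = 1 ∧
    (∀ r ∈ R, Sgn r.2 (D b r.1 - r.2 * D b g) (D b' r.1 - r.2 * D b' g)) ∧
    (D b g : ℝ) ≤ Dr b z ∧
    ∃ r ∈ R, r.2 ≠ 0 ∧ ((D b r.1 - r.2 * D b g = 0 ∧ D b' r.1 - r.2 * D b' g ≠ 0) ∨
      (D b' r.1 - r.2 * D b' g = 0 ∧ D b r.1 - r.2 * D b g ≠ 0))

lemma Core.exa (h : Core R z) {b : ℤ × ℤ} {x c : W} (s : Sys R z (-b, 0) x c) (x0 : x.2 = 0)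
    (xp : 0 < D b x.1) (cp : 0 < c.2) : ∃ b' g, Ch R z b b' g := by
  obtain ⟨u, hu⟩ := h.det s
  obtain ⟨b', x2⟩ := x
  obtain ⟨g, c2⟩ := c
  simp only at x0 xp cp
  subst x0
  have e1 : D b b' * (-u * c2) = 1 := by rw [← hu]; simp [det3, D]; ring
  have e2 : c2 * (-u * D b b') = 1 := by linarith
  have o := Int.eq_one_of_mul_eq_one_right xp.le e1
  have c1 := Int.eq_one_of_mul_eq_one_right cp.le e2
  subst c1
  have co : ∀ i j k : ℤ, ∀ r : W, r = i • ((-b, 0) : W) + j • ((b', 0) : W) + k • ((g, 1) : W) →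
      r.2 = k ∧ D b r.1 - r.2 * D b g = j ∧ D b' r.1 - r.2 * D b' g = i := by
    intro i j k r e
    subst e
    unfold D at *
    refine ⟨by simp, ?_, ?_⟩
    · simp; linear_combination j * o
    · simp; linear_combination i * o
  refine ⟨b', g, s.mb, s.mc, o, ?_, ?_, ?_⟩
  · intro r hr
    obtain ⟨i, j, k, e, sg⟩ := s.gen r hr
    obtain ⟨h1, h2, h3⟩ := co i j k r e
    rw [h2, h3, h1]
    unfold Sgn at *; tauto
  · obtain ⟨l, m, n, h1, h2, h3, h4, h5, h6⟩ := s.cone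
    have o' : (b.1 : ℝ) * b'.2 - b.2 * b'.1 = 1 := by unfold D at o; exact_mod_cast o
    simp at h4 h5 h6
    unfold D Dr
    push_cast
    rw [h4, h5, ← h6]
    nlinarith
  · obtain ⟨i, j, hi, hj, hr | hr⟩ := s.ic
    · obtain ⟨h1, h2, h3⟩ := co j 0 i _ (show i • ((g, 1) : W) + j • ((-b, 0) : W) = _ by module)
      exact ⟨_, hr, by rw [h1]; exact hi, Or.inl ⟨h2, by rw [h3]; exact hj⟩⟩
    · obtain ⟨h1, h2, h3⟩ := co 0 j i _ (show i • ((g, 1) : W) + j • ((b', 0) : W) = _ by module)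
      exact ⟨_, hr, by rw [h1]; exact hi, Or.inr ⟨h3, by rw [h2]; exact hj⟩⟩

lemma Core.ex (h : Core R z) {b : ℤ × ℤ} (hb : ((b, 0) : W) ∈ R) : ∃ b' g, Ch R z b b' g := by
  have b0 : 0 < b.1 * b.1 + b.2 * b.2 := by
    by_contra hc
    have h1 : b.1 = 0 := by nlinarith [mul_self_nonneg b.1, mul_self_nonneg b.2]
    have h2 : b.2 = 0 := by nlinarith [mul_self_nonneg b.1, mul_self_nonneg b.2]
    have : b = 0 := Prod.ext h1 h2
    rw [this] at hb
    exact h.nz hb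
  have nb : ((-b, 0) : W) ∈ R := by simpa using h.neg _ hb
  obtain ⟨x, c, s, lx, lc, nx, nc⟩ := h.sort0 (y1 := ((0, 0), 1)) (y2 := ((-b.2, b.1), 0))
    (y3 := ((-b.1, -b.2), 0)) (r := (-b, 0)) (fun r r1 r2 r3 => by
      simp [dt] at r1 r2 r3
      have e1 : r.1.1 * (b.1 * b.1 + b.2 * b.2) = 0 := by linear_combination -b.2 * r2 - b.1 * r3
      have e2 : r.1.2 * (b.1 * b.1 + b.2 * b.2) = 0 := by linear_combination b.1 * r2 - b.2 * r3
      exact Prod.ext (Prod.ext ((mul_eq_zero.1 e1).resolve_right b0.ne')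
        ((mul_eq_zero.1 e2).resolve_right b0.ne')) r1)
    (by simp [dz]) nb (by simp [dt]) (by simp [dt]; ring) (by simpa [dt] using b0)
  have d1 : ∀ r : W, dt ((0, 0), 1) r = r.2 := by intro r; simp [dt]
  have d2 : ∀ r : W, dt ((-b.2, b.1), 0) r = D b r.1 := by intro r; simp [dt, D]; ring
  unfold Lex3 at lx lc
  rw [d1, d2] at lx lc nx nc
  by_cases x0 : x.2 = 0 <;> by_cases c0 : c.2 = 0
  · exfalso
    obtain ⟨i, j, k, e, -⟩ := s.gen _ h.e3
    have := congrArg Prod.snd e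
    simp [x0, c0] at this
  · exact h.exa s x0 (by omega) (by omega)
  · exact h.exa s.s23 c0 (by omega) (by omega)
  · exfalso
    have key : ∀ u : ℤ × ℤ, ((u, 0) : W) ∈ R → D b u = 0 := by
      intro u hu
      obtain ⟨i, j, k, e, sg⟩ := s.gen _ hu
      have e2 := congrArg Prod.snd e
      simp at e2
      have := sum0 (sg.mul (a := 0) (b := x.2) (c := c.2) (fun _ => le_rfl) (fun _ => by omega)
        (fun _ => by omega)) (by linarith)
      have e1 := congrArg Prod.fst e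
      rw [(mul_eq_zero.1 this.2.1).resolve_right x0, (mul_eq_zero.1 this.2.2).resolve_right c0]
        at e1
      simp only [zero_smul, add_zero, Prod.smul_fst] at e1
      rw [e1, D_smul_r, D_neg_r, D_self]; ring
    have k1 := key _ h.e1
    have k2 := key _ h.e2
    simp [D] at k1 k2
    rw [k1, k2] at b0; omega

lemma sign_choice {x : ℝ} (hx : x ≠ 0) : ∃ s : ℤ, s * s = 1 ∧ 0 < (s : ℝ) * x := by
  rcases lt_or_gt_of_ne hx with h | h
  · exact ⟨-1, by norm_num, by push_cast; linarith⟩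
  · exact ⟨1, by norm_num, by push_cast; linarith⟩

lemma Core.dir (h : Core R z) {p x w : ℤ × ℤ} {k : ℤ} (hp : ((p, 1) : W) ∈ R) (hk : 2 ≤ k)
    (hpk : ((p + k • x, 1) : W) ∈ R) (hw : D x w = 1) (hz : Dr x z ≠ D x p) :
    ((x, 0) : W) ∈ R ∧ ((p + x, 1) : W) ∈ R := by
  obtain ⟨s, s1, s2⟩ := sign_choice (sub_ne_zero.2 hz)
  have hy : 0 < dz ((-s * x.2, s * x.1), -s * D x p) z := by
    convert s2 using 1
    unfold dz Dr; push_cast; ring
  have e : ((p + k • x, 1) : W) = (p, 1) + k • ((x, 0) : W) := by simp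
  rw [e] at hpk
  have ya : dt ((-s * x.2, s * x.1), -s * D x p) (x, 0) = 0 := by simp [dt]; ring
  have yp : dt ((-s * x.2, s * x.1), -s * D x p) (p, 1) = 0 := by simp [dt, D]; ring
  have fa : dt ((w.2, -w.1), -D p w) (x, 0) = 1 := by
    unfold D at hw; simp [dt]; linarith
  have fp : dt ((w.2, -w.1), -D p w) (p, 1) = 0 := by simp [dt, D]; ring
  have ga : dt ((0, 0), 1) (x, 0) = 0 := by simp [dt]
  have gp : dt ((0, 0), 1) (p, 1) = 1 := by simp [dt]
  have sp : ∀ r : W, dt ((-s * x.2, s * x.1), -s * D x p) r = 0 →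
      r = dt ((w.2, -w.1), -D p w) r • ((x, 0) : W) + dt ((0, 0), 1) r • ((p, 1) : W) := by
    intro r hr
    have hr' : x.1 * r.1.2 - x.2 * r.1.1 - (x.1 * p.2 - x.2 * p.1) * r.2 = 0 := by
      unfold dt D at hr
      simp only at hr
      linear_combination s * hr - (x.1 * r.1.2 - x.2 * r.1.1 - (x.1 * p.2 - x.2 * p.1) * r.2) * s1
    unfold D at hw
    refine Prod.ext (Prod.ext ?_ ?_) ?_
    · simp [dt, D]; linear_combination (p.1 * r.2 - r.1.1) * hw + w.1 * hr'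
    · simp [dt, D]; linear_combination (p.2 * r.2 - r.1.2) * hw + w.2 * hr'
    · simp [dt]
  have hd : det3 (x, 0) (p, 1) (w, 0) ≠ 0 := by simp [det3, hw]
  have h1 := h.dir3 hy hk hp hpk ya yp fa ga gp sp hd
  refine ⟨h1, ?_⟩
  simpa using h.str3 hy hk h1 hp hpk ya yp fa fp ga gp sp hd

lemma Core.strF (h : Core R z) {x u : ℤ × ℤ} {k : ℤ} (hx : ((x, 0) : W) ∈ R)
    (hu : ((u, 0) : W) ∈ R) (hk : 2 ≤ k) (h1 : D x u = 1) (huk : ((u + k • x, 0) : W) ∈ R) :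
    ((u + x, 0) : W) ∈ R := by
  have e : ((u + k • x, 0) : W) = (u, 0) + k • ((x, 0) : W) := by simp
  rw [e] at huk
  have := h.str3 (y := ((0, 0), 1)) (f := ((u.2, -u.1), 0)) (g := ((-x.2, x.1), 0))
    (w := ((0, 0), 1)) (by simp [dz]) hk hx hu huk (by simp [dt]) (by simp [dt])
    (by unfold D at h1; simp [dt]; linarith) (by simp [dt]; ring) (by simp [dt]; ring)
    (by unfold D at h1; simp [dt]; linarith) (fun r hr => by
      simp [dt] at hr
      unfold D at h1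
      refine Prod.ext (Prod.ext ?_ ?_) ?_
      · simp [dt]; linear_combination (-r.1.1) * h1
      · simp [dt]; linear_combination (-r.1.2) * h1
      · simp [hr]) (by simp [det3, h1])
  simpa using this

lemma Core.rowa (h : Core R z) {x : ℤ × ℤ} {t : ℤ} {b c : W} (s : Sys R z (x, 0) b c)
    (b0 : D x b.1 = t * b.2) (bp : 0 < b.2) : ∃ r : ℤ × ℤ, ((r, 1) : W) ∈ R ∧ D x r = t := by
  obtain ⟨u, hu⟩ := h.det s
  have e : b.2 * (u * (t * c.2 - D x c.1)) = 1 := by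
    rw [← hu]; simp only [det3]; rw [b0]; ring
  have e1 := Int.eq_one_of_mul_eq_one_right bp.le e
  refine ⟨b.1, ?_, by rw [b0, e1, mul_one]⟩
  rw [← e1]; exact s.mb

lemma rowb {y x b c p q : W} (s : Sys R z x b c) (yx : dt y x = 0) (x0 : x.2 = 0) (b0 : b.2 = 0)
    (yb : 0 < dt y b) (yc : 0 < dt y c) (hp : p ∈ R) (hq : q ∈ R) (p1 : p.2 = 1) (q1 : q.2 = 1)
    (yp : dt y p < 0) (yq : 0 < dt y q) : False := by
  obtain ⟨i, j, k, e, sg⟩ := s.gen _ hp
  obtain ⟨i', j', k', e', sg'⟩ := s.gen _ hq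
  have l := congrArg Prod.snd e
  have l' := congrArg Prod.snd e'
  simp [x0, b0, p1, q1] at l l'
  rw [e, dt_comb, yx] at yp
  rw [e', dt_comb, yx] at yq
  have k1 : k ≤ 0 := by
    rcases sg with sg | sg
    · nlinarith [mul_nonneg sg.2.1 yb.le, mul_nonneg sg.2.2 yc.le]
    · exact sg.2.2
  have k2 : 0 ≤ k' := by
    rcases sg' with sg | sg
    · exact sg.2.2
    · nlinarith [mul_nonneg (neg_nonneg.2 sg.2.1) yb.le, mul_nonneg (neg_nonneg.2 sg.2.2) yc.le]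
  have e3 : k = k' := by linear_combination k * l' - k' * l
  have e4 : k = 0 := by omega
  rw [e4] at l; omega

lemma Core.row (h : Core R z) {x p q : ℤ × ℤ} {t : ℤ} (hx : ((x, 0) : W) ∈ R)
    (hz : Dr x z ≠ t) (hp : ((p, 1) : W) ∈ R) (hq : ((q, 1) : W) ∈ R) (h1 : D x p < t)
    (h2 : t < D x q) : ∃ r : ℤ × ℤ, ((r, 1) : W) ∈ R ∧ D x r = t := by
  obtain ⟨w, g, hw, -, o, -⟩ := h.ex hx
  obtain ⟨s, s1, s2⟩ := sign_choice (sub_ne_zero.2 hz)
  have hy : 0 < dz ((-s * x.2, s * x.1), -s * t) z := by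
    convert s2 using 1
    unfold dz Dr; push_cast; ring
  have dy : ∀ r : W, dt ((-s * x.2, s * x.1), -s * t) r = s * (D x r.1 - t * r.2) := by
    intro r; simp [dt, D]; ring
  have d1 : ∀ r : W, dt ((0, 0), 1) r = r.2 := by intro r; simp [dt]
  have s0 : s ≠ 0 := by intro e; rw [e] at s1; omega
  obtain ⟨b, c, sy, lb, lc, nb, nc⟩ := h.sort0 (y1 := ((-s * x.2, s * x.1), -s * t))
    (y2 := ((0, 0), 1)) (y3 := ((w.2, -w.1), 0)) (r := (x, 0)) (fun r r1 r2 r3 => by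
      rw [dy] at r1
      rw [d1] at r2
      rw [r2, mul_zero, sub_zero] at r1
      have r1' := (mul_eq_zero.1 r1).resolve_left s0
      have r3' : D w r.1 = 0 := by unfold dt at r3; unfold D; simp at r3; linarith
      refine Prod.ext ?_ r2
      rw [decomp o r.1, r1', r3']; simp) hy hx (by rw [dy]; simp [D_self]) (by simp [dt])
      (by unfold D at o; simp [dt]; linarith)
  have key : ∀ b c : W, Sys R z (x, 0) b c →
      Lex3 ((-s * x.2, s * x.1), -s * t) ((0, 0), 1) ((w.2, -w.1), 0) b →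
      ¬ (dt ((-s * x.2, s * x.1), -s * t) b = 0 ∧ dt ((0, 0), 1) b = 0) →
      (∃ r : ℤ × ℤ, ((r, 1) : W) ∈ R ∧ D x r = t) ∨ 0 < dt ((-s * x.2, s * x.1), -s * t) b := by
    intro b c sy lb nb
    by_cases h0 : 0 < dt ((-s * x.2, s * x.1), -s * t) b
    · exact Or.inr h0
    · left
      unfold Lex3 at lb
      have e1 : dt ((-s * x.2, s * x.1), -s * t) b = 0 := by omega
      have e2 : 0 < dt ((0, 0), 1) b := by omega
      rw [dy] at e1
      rw [d1] at e2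
      exact h.rowa sy (by have := (mul_eq_zero.1 e1).resolve_left s0; linarith) e2
  rcases key b c sy lb nb with k1 | k1
  · exact k1
  rcases key c b sy.s23 lc nc with k2 | k2
  · exact k2
  exfalso
  have sw : ((s • w, 0) : W) ∈ R := by
    rcases Int.eq_one_or_neg_one_of_mul_eq_one s1 with e | e
    · rw [e, one_smul]; exact hw
    · rw [e]; simpa using h.neg _ hw
  obtain ⟨i, j, k, e, sg⟩ := sy.gen _ sw
  have yx : dt ((-s * x.2, s * x.1), -s * t) (x, 0) = 0 := by rw [dy]; simp [D_self]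
  have e1 := congrArg (dt ((-s * x.2, s * x.1), -s * t)) e
  rw [dt_comb, yx, dy] at e1
  simp only [D_smul_r, o] at e1
  have e2 := congrArg Prod.snd e
  have pq : (dt ((-s * x.2, s * x.1), -s * t) (p, 1) < 0 ∧
      0 < dt ((-s * x.2, s * x.1), -s * t) (q, 1)) ∨
      (dt ((-s * x.2, s * x.1), -s * t) (q, 1) < 0 ∧
      0 < dt ((-s * x.2, s * x.1), -s * t) (p, 1)) := by
    rw [dy, dy]
    rcases Int.eq_one_or_neg_one_of_mul_eq_one s1 with e | e <;> rw [e] <;> simp only <;> omega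
  rcases one_of (i := j) (j := k) (by unfold Sgn at sg; tauto) k1 k2 (by linarith) with o' | o'
  · simp [o'.1, o'.2] at e2
    rcases pq with pq | pq
    · exact rowb sy yx rfl e2.symm k1 k2 hp hq rfl rfl pq.1 pq.2
    · exact rowb sy yx rfl e2.symm k1 k2 hq hp rfl rfl pq.1 pq.2
  · simp [o'.1, o'.2] at e2
    rcases pq with pq | pq
    · exact rowb sy.s23 yx rfl e2.symm k2 k1 hp hq rfl rfl pq.1 pq.2
    · exact rowb sy.s23 yx rfl e2.symm k2 k1 hq hp rfl rfl pq.1 pq.2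

lemma Core.pl (h : Core R z) :
    Pl {u | ((u, 0) : W) ∈ R} {p | ((p, 1) : W) ∈ R} z (Ch R z) where
  neg := fun u hu => by simpa using h.neg _ hu
  fin := h.fin
  ex := fun b hb => h.ex hb
  memF := fun b b' g c => c.1
  memP := fun b b' g c => c.2.1
  one := fun b b' g c => c.2.2.1
  sgn := fun b b' g c u hu => by
    have := c.2.2.2.1 _ hu
    unfold Sgn at this
    simp only [zero_mul, sub_zero] at this
    tauto
  minP := fun b b' g c u hu => by
    have := c.2.2.2.1 _ hu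
    unfold Sgn at this
    simp only [one_mul] at this
    omega
  minz := fun b b' g c => c.2.2.2.2.1
  irr := fun b0 b1 b2 b3 g c0 c1 c2 => by
    obtain ⟨r, hr, r0, hc⟩ := c1.2.2.2.2.2
    have s0 := c0.2.2.2.1 r hr
    have s1 := c1.2.2.2.1 r hr
    have s2 := c2.2.2.2.1 r hr
    have d := decomp c1.2.2.1 (r.1 - r.2 • g)
    have a0 := congrArg (D b0) d
    have a3 := congrArg (D b3) d
    simp only [D_sub_r, D_smul_r] at a0 a3
    rw [c0.2.2.1] at a0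
    rw [D_anti b3 b2, c2.2.2.1] at a3
    unfold Sgn at *
    rcases hc with hc | hc
    · rw [hc.1] at a0; omega
    · rw [hc.1] at a3; omega
  dir := fun p hp x w k hk hpk hw hz => h.dir hp hk hpk hw hz
  strF := fun x hx u hu k hk h1 huk => h.strF hx hu hk h1 huk
  row := fun x hx t hz p hp q hq h1 h2 => h.row hx hz hp hq h1 h2
  nz := h.np

theorem core_bound : ∃ Q : ℕ, 0 < Q ∧ ∀ (R : Set W) (z : ℝ × ℝ), Core R z →
    ∀ u v : ℤ × ℤ, ((u, 0) : W) ∈ R → ((v, 0) : W) ∈ R → |D u v| < Q := by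
  obtain ⟨Q, h0, hQ⟩ := planar_bound
  exact ⟨Q, h0, fun R z h u v hu hv => hQ _ _ _ _ h.pl u hu v hv⟩

end Pool.Agent.MP_ad1a12_co

end

-- part MP_ad1a12_co.Real2
section

namespace Pool.Agent.MP_ad1a12_co

open Matrix

variable {R : Set (Fin 3 → ℝ)} {d : Fin 3 → ℝ}

def emb (b : Fin 3 → Fin 3 → ℝ) (n : W) : Fin 3 → ℝ :=
  (n.1.1 : ℝ) • b 0 + (n.1.2 : ℝ) • b 1 + (n.2 : ℝ) • b 2

lemma emb_add (b : Fin 3 → Fin 3 → ℝ) (n m : W) : emb b (n + m) = emb b n + emb b m := by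
  simp only [emb, Prod.fst_add, Prod.snd_add, Int.cast_add]; module
lemma emb_smul (b : Fin 3 → Fin 3 → ℝ) (k : ℤ) (n : W) : emb b (k • n) = (k : ℝ) • emb b n := by
  simp only [emb, Prod.smul_fst, Prod.smul_snd, smul_eq_mul, Int.cast_mul]; module
lemma emb_neg (b : Fin 3 → Fin 3 → ℝ) (n : W) : emb b (-n) = -emb b n := by
  simp only [emb, Prod.fst_neg, Prod.snd_neg, Int.cast_neg]; module

variable {b w : Fin 3 → Fin 3 → ℝ}

lemma WF.dot (h : WF R d b w) (n y : W) : emb b n ⬝ᵥ emb w y = dt y n := by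
  simp [emb, dt, add_dotProduct, dotProduct_add, smul_dotProduct, dotProduct_smul, h.dual]

lemma WF.c0 (h : WF R d b w) (n : W) : emb b n ⬝ᵥ w 0 = n.1.1 := by
  simp [emb, add_dotProduct, smul_dotProduct, h.dual]
lemma WF.c1 (h : WF R d b w) (n : W) : emb b n ⬝ᵥ w 1 = n.1.2 := by
  simp [emb, add_dotProduct, smul_dotProduct, h.dual]
lemma WF.c2 (h : WF R d b w) (n : W) : emb b n ⬝ᵥ w 2 = n.2 := by
  simp [emb, add_dotProduct, smul_dotProduct, h.dual]

lemma WF.inj (h : WF R d b w) {n m : W} (e : emb b n = emb b m) : n = m := by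
  have e0 := h.c0 n
  have e1 := h.c1 n
  have e2 := h.c2 n
  rw [e, h.c0] at e0
  rw [e, h.c1] at e1
  rw [e, h.c2] at e2
  exact Prod.ext (Prod.ext (by exact_mod_cast e0.symm) (by exact_mod_cast e1.symm))
    (by exact_mod_cast e2.symm)

lemma WF.surj (h : WF R d b w) {r : Fin 3 → ℝ} (hr : r ∈ R) : ∃ n, r = emb b n := by
  obtain ⟨n, e, -⟩ := h.gen r hr
  exact ⟨((n 0, n 1), n 2), by rw [e, Fin.sum_univ_three]; rfl⟩

lemma WF.perm (h : WF R d b w) (s : Equiv.Perm (Fin 3)) : WF R d (b ∘ s) (w ∘ s) where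
  mem := fun i => h.mem _
  dual := fun i j => by simp [h.dual]
  gen := fun r hr => by
    obtain ⟨n, e, p⟩ := h.gen r hr
    refine ⟨n ∘ s, ?_, p.imp (fun p i => p _) (fun p i => p _)⟩
    rw [e]; exact (Equiv.sum_comp s (fun i => (n i : ℝ) • b i)).symm
  cone := by
    obtain ⟨l, p, e⟩ := h.cone
    refine ⟨l ∘ s, fun i => p _, ?_⟩
    rw [e]; exact (Equiv.sum_comp s (fun i => l i • b i)).symm
  irr := fun i => by
    obtain ⟨j, hj, m, n, h1, h2, h3⟩ := h.irr (s i)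
    refine ⟨s.symm j, fun e => hj (by rw [← e]; simp), m, n, h1, h2, by simpa using h3⟩

lemma mk_core (h : IsAffineTits R d) (hi : IsIrred R d) (hc : IsCryst R d) (hb : WF R d b w)
    (h2 : 0 < d ⬝ᵥ w 2) :
    Core {n | emb b n ∈ R} (d ⬝ᵥ w 0 / d ⬝ᵥ w 2, d ⬝ᵥ w 1 / d ⬝ᵥ w 2) where
  neg := fun r hr => by
    simp only [Set.mem_setOf_eq, emb_neg] at *; exact h.neg hr
  red := fun r hr n hn => by
    simp only [Set.mem_setOf_eq, emb_smul] at *
    exact_mod_cast (h.reduced _ hr _).1 hn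
  e1 := by simpa [emb] using hb.mem 0
  e2 := by simpa [emb] using hb.mem 1
  e3 := by simpa [emb] using hb.mem 2
  np := fun p hp e => by
    obtain ⟨x, x1, x2⟩ := h.meets _ hp
    obtain ⟨l, -, el⟩ := hb.cone
    have l0 : ∀ j, d ⬝ᵥ w j = l j := by
      intro j; rw [el]; simp [sum_dotProduct, smul_dotProduct, hb.dual]
    simp only [l0] at e h2
    have e0 := (div_eq_iff h2.ne').1 e.1
    have e1 := (div_eq_iff h2.ne').1 e.2
    have : d = l 2 • emb b (p, 1) := by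
      rw [el, Fin.sum_univ_three, e0, e1]; simp only [emb]; module
    rw [this, smul_dotProduct, x2] at x1
    simp at x1
  fin := by
    obtain ⟨U, hU, hF⟩ := h.locFin _ h2
    refine Set.Finite.of_injOn (f := fun u : ℤ × ℤ => emb b (u, 0)) ?_ ?_ hF
    · intro u hu
      exact ⟨hu, w 2, mem_of_mem_nhds hU, by rw [hb.c2]; simp⟩
    · intro u _ v _ e
      exact (Prod.ext_iff.1 (hb.inj e)).1
  flag := fun y1 y2 y3 nd hy => by
    have hy' : 0 < d ⬝ᵥ emb w y1 := by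
      have : d ⬝ᵥ emb w y1 = d ⬝ᵥ w 2 * dz y1 (d ⬝ᵥ w 0 / d ⬝ᵥ w 2, d ⬝ᵥ w 1 / d ⬝ᵥ w 2) := by
        simp only [emb, dz, dotProduct_add, dotProduct_smul, smul_eq_mul]
        field_simp
      rw [this]; exact mul_pos h2 hy
    obtain ⟨x, hx, lx⟩ := lex_pt h (y2 := emb w y2) (y3 := emb w y3) hy' (fun r hr e => by
      obtain ⟨n, rfl⟩ := hb.surj hr
      rw [hb.dot, hb.dot, hb.dot] at e
      have := nd n (by exact_mod_cast e.1) (by exact_mod_cast e.2.1) (by exact_mod_cast e.2.2)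
      apply h.nz hr
      rw [this]; simp [emb])
    obtain ⟨a, v, ha, pos⟩ := wf_ex h hi hc hx
    choose A hA using fun i => hb.surj (ha.mem i)
    have mem : ∀ i, emb b (A i) ∈ R := fun i => by rw [← hA]; exact ha.mem i
    have lex : ∀ i, Lex3 y1 y2 y3 (A i) := by
      intro i
      have := lx _ (ha.mem i) (pos i)
      rw [hA, hb.dot, hb.dot, hb.dot] at this
      unfold Lex3
      exact_mod_cast this
    have irr : ∀ i, ∃ j, j ≠ i ∧ ∃ m n : ℤ, m ≠ 0 ∧ n ≠ 0 ∧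
        m • A i + n • A j ∈ {n | emb b n ∈ R} := by
      intro i
      obtain ⟨j, hj, m, n, h1, h2, h3⟩ := ha.irr i
      refine ⟨j, hj, m, n, h1, h2, ?_⟩
      simp only [Set.mem_setOf_eq, emb_add, emb_smul, ← hA]
      exact h3
    refine ⟨A 0, A 1, A 2, ⟨mem 0, mem 1, mem 2, ?_, ?_, ?_, ?_, ?_⟩, lex 0, lex 1, lex 2⟩
    · intro r hr
      obtain ⟨n, e, p⟩ := ha.gen _ hr
      refine ⟨n 0, n 1, n 2, hb.inj ?_, ?_⟩
      · rw [e, Fin.sum_univ_three]
        simp only [emb_add, emb_smul, ← hA]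
      · exact p.imp (fun p => ⟨p 0, p 1, p 2⟩) (fun p => ⟨p 0, p 1, p 2⟩)
    · obtain ⟨l, p, e⟩ := ha.cone
      rw [Fin.sum_univ_three, hA, hA, hA] at e
      have e0 := congrArg (· ⬝ᵥ w 0) e
      have e1 := congrArg (· ⬝ᵥ w 1) e
      have e2 := congrArg (· ⬝ᵥ w 2) e
      simp only [add_dotProduct, smul_dotProduct, hb.c0, hb.c1, hb.c2, smul_eq_mul] at e0 e1 e2
      refine ⟨l 0 / d ⬝ᵥ w 2, l 1 / d ⬝ᵥ w 2, l 2 / d ⬝ᵥ w 2, div_nonneg (p 0) h2.le,
        div_nonneg (p 1) h2.le, div_nonneg (p 2) h2.le, ?_, ?_, ?_⟩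
      · simp only; rw [e0]; field_simp
      · simp only; rw [e1]; field_simp
      · field_simp; linarith
    · obtain ⟨j, hj, m, n, h1, h2, h3⟩ := irr 0
      refine ⟨m, n, h1, h2, ?_⟩
      fin_cases j
      · exact absurd rfl hj
      · exact Or.inl h3
      · exact Or.inr h3
    · obtain ⟨j, hj, m, n, h1, h2, h3⟩ := irr 1
      refine ⟨m, n, h1, h2, ?_⟩
      fin_cases j
      · exact Or.inl h3
      · exact absurd rfl hj
      · exact Or.inr h3
    · obtain ⟨j, hj, m, n, h1, h2, h3⟩ := irr 2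
      refine ⟨m, n, h1, h2, ?_⟩
      fin_cases j
      · exact Or.inl h3
      · exact Or.inr h3
      · exact absurd rfl hj

lemma cross_id (u v x : Fin 3 → ℝ) : ((u ⨯₃ v) ⬝ᵥ (u ⨯₃ v)) • x =
    (x ⬝ᵥ u) • (v ⨯₃ (u ⨯₃ v)) + (x ⬝ᵥ v) • ((u ⨯₃ v) ⨯₃ u) + (x ⬝ᵥ u ⨯₃ v) • (u ⨯₃ v) := by
  ext i
  fin_cases i <;> simp [cross_apply, dotProduct, Fin.sum_univ_three] <;> ring

lemma vertex0 (h : IsAffineTits R d) (hi : IsIrred R d) (hc : IsCryst R d) {u v : Fin 3 → ℝ}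
    (hu : u ∈ R) (hv : v ∈ R) (hd : 0 < d ⬝ᵥ u ⨯₃ v) :
    ∃ b w, WF R d b w ∧ 0 < d ⬝ᵥ w 2 ∧ u ⬝ᵥ w 2 = 0 ∧ v ⬝ᵥ w 2 = 0 := by
  have n0 : (u ⨯₃ v) ⬝ᵥ (u ⨯₃ v) ≠ 0 := by
    intro e
    rw [dotProduct_self_eq_zero.1 e] at hd
    simp at hd
  obtain ⟨x, hx, lx⟩ := lex_pt h (y2 := u) (y3 := v) hd (fun r hr e => by
    apply h.nz hr
    have := cross_id u v r
    rw [e.1, e.2.1, e.2.2, zero_smul, zero_smul, zero_smul, add_zero, add_zero] at this
    exact (smul_eq_zero.1 this).resolve_left n0)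
  obtain ⟨a, w, ha, pos⟩ := wf_ex h hi hc hx
  have p0 : ∀ i, 0 ≤ a i ⬝ᵥ u ⨯₃ v := fun i => by
    rcases lx _ (ha.mem i) (pos i) with o | o
    · exact o.le
    · exact o.1.ge
  set y := u ⨯₃ v with hy
  obtain ⟨k, hk⟩ : ∃ k, 0 < a k ⬝ᵥ y := by
    by_contra hn
    push_neg at hn
    obtain ⟨l, -, e⟩ := ha.cone
    rw [e, sum_dotProduct] at hd
    have : ∀ i, a i ⬝ᵥ y = 0 := fun i => le_antisymm (hn i) (p0 i)
    simp [smul_dotProduct, this] at hd
  have co : ∀ r ∈ R, r ⬝ᵥ y = 0 → ∀ j, 0 < a j ⬝ᵥ y → r ⬝ᵥ w j = 0 := by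
    intro r hr ry j hj
    obtain ⟨n, e, p⟩ := ha.gen r hr
    have c : r ⬝ᵥ w j = n j := by
      rw [e]; simp [sum_dotProduct, smul_dotProduct, ha.dual]
    rw [e, sum_dotProduct] at ry
    simp only [smul_dotProduct, smul_eq_mul] at ry
    rw [c]
    rcases p with p | p
    · have := (Finset.sum_eq_zero_iff_of_nonneg (fun i _ => mul_nonneg
        (by exact_mod_cast p i) (p0 i))).1 ry j (Finset.mem_univ _)
      exact (mul_eq_zero.1 this).resolve_right hj.ne'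
    · have := (Finset.sum_eq_zero_iff_of_nonpos (fun i _ => mul_nonpos_of_nonpos_of_nonneg
        (by exact_mod_cast p i) (p0 i))).1 ry j (Finset.mem_univ _)
      exact (mul_eq_zero.1 this).resolve_right hj.ne'
  have uk := co u hu (dot_self_cross u v) k hk
  have vk := co v hv (dot_cross_self u v) k hk
  refine ⟨_, _, ha.perm (Equiv.swap 2 k), ?_, by simpa using uk, by simpa using vk⟩
  simp only [Function.comp, Equiv.swap_apply_left]
  -- `w k` is a positive multiple of `y`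
  have e : ∀ r : Fin 3 → ℝ, (y ⬝ᵥ y) * (r ⬝ᵥ w k) = (r ⬝ᵥ y) * (y ⬝ᵥ w k) := by
    intro r
    have := cross_id u v (w k)
    rw [dotProduct_comm (w k) u, dotProduct_comm (w k) v, uk, vk, zero_smul, zero_smul, add_zero,
      zero_add, ← hy] at this
    have := congrArg (r ⬝ᵥ ·) this
    simp only [dotProduct_smul, smul_eq_mul] at this
    rw [this, dotProduct_comm (w k) y, mul_comm]
  have e1 := e d
  have e2 := e (a k)
  rw [ha.dual, if_pos rfl] at e2
  have yy : 0 < y ⬝ᵥ y := lt_of_le_of_ne (Finset.sum_nonneg fun i _ => mul_self_nonneg (y i)) n0.symm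
  have yw : 0 < y ⬝ᵥ w k := by
    by_contra hn
    push_neg at hn
    nlinarith
  by_contra hn
  push_neg at hn
  nlinarith [mul_pos hd yw]

lemma vertex (h : IsAffineTits R d) (hi : IsIrred R d) (hc : IsCryst R d) {u v : Fin 3 → ℝ}
    (hu : u ∈ R) (hv : v ∈ R) (hd : d ⬝ᵥ u ⨯₃ v ≠ 0) :
    ∃ b w, WF R d b w ∧ 0 < d ⬝ᵥ w 2 ∧ u ⬝ᵥ w 2 = 0 ∧ v ⬝ᵥ w 2 = 0 := by
  rcases lt_or_gt_of_ne hd with l | l
  · obtain ⟨b, w, h1, h2, h3, h4⟩ := vertex0 h hi hc hv hu (by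
      rw [← cross_anticomm, dotProduct_neg]; linarith)
    exact ⟨b, w, h1, h2, h4, h3⟩
  · exact vertex0 h hi hc hu hv l

theorem classes : ∃ Q : ℕ, 0 < Q ∧ ∀ (R : Set (Fin 3 → ℝ)) (d : Fin 3 → ℝ), IsAffineTits R d →
    IsIrred R d → IsCryst R d → ∃ k : (Fin 3 → ℝ) → Fin 3 → ZMod Q,
      ∀ r ∈ R, ∀ s ∈ R, k r = k s → d ⬝ᵥ r ⨯₃ s = 0 := by
  obtain ⟨Q, Q0, hQ⟩ := core_bound
  refine ⟨Q, Q0, fun R d h hi hc => ?_⟩
  by_cases hp : ∃ u ∈ R, ∃ v ∈ R, d ⬝ᵥ u ⨯₃ v ≠ 0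
  swap
  · push_neg at hp
    exact ⟨fun _ => 0, fun r hr s hs _ => hp r hr s hs⟩
  obtain ⟨u0, hu0, v0, hv0, h0⟩ := hp
  obtain ⟨a, v, ha, -⟩ := vertex h hi hc hu0 hv0 h0
  refine ⟨fun r i => ((⌊r ⬝ᵥ v i⌋ : ℤ) : ZMod Q), fun r hr s hs e => ?_⟩
  by_contra hd
  obtain ⟨b, w, hb, h2, r2, s2⟩ := vertex h hi hc hr hs hd
  have cb := hQ _ _ (mk_core h hi hc hb h2)
  obtain ⟨n, rn⟩ := ha.surj hr
  obtain ⟨m, sm⟩ := ha.surj hs
  have e0 := congrFun e 0
  have e1 := congrFun e 1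
  have e2 := congrFun e 2
  simp only [rn, sm, ha.c0, ha.c1, ha.c2, Int.floor_intCast] at e0 e1 e2
  obtain ⟨t0, ht0⟩ := (ZMod.intCast_eq_intCast_iff_dvd_sub _ _ _).1 e0
  obtain ⟨t1, ht1⟩ := (ZMod.intCast_eq_intCast_iff_dvd_sub _ _ _).1 e1
  obtain ⟨t2, ht2⟩ := (ZMod.intCast_eq_intCast_iff_dvd_sub _ _ _).1 e2
  have mn : m = n + (Q : ℤ) • (((t0, t1), t2) : W) := by
    refine Prod.ext (Prod.ext ?_ ?_) ?_ <;> simp <;> linarith
  choose A hA using fun i => hb.surj (ha.mem i)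
  obtain ⟨p, rp⟩ := hb.surj hr
  obtain ⟨q, sq⟩ := hb.surj hs
  have pq : q = p + (Q : ℤ) • (t0 • A 0 + t1 • A 1 + t2 • A 2) := by
    apply hb.inj
    rw [emb_add, emb_smul, emb_add, emb_add, emb_smul, emb_smul, emb_smul, ← hA, ← hA, ← hA,
      ← rp, ← sq, sm, rn, mn, emb_add, emb_smul]
    rfl
  rw [rp, hb.c2] at r2
  rw [sq, hb.c2] at s2
  obtain ⟨p, p2⟩ := p
  obtain ⟨q, q2⟩ := q
  have p0 : p2 = 0 := by exact_mod_cast r2
  have q0 : q2 = 0 := by exact_mod_cast s2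
  subst p0 q0
  have lt := cb p q (by rw [rp] at hr; exact hr) (by rw [sq] at hs; exact hs)
  have dv : (Q : ℤ) ∣ D p q := by
    have := congrArg Prod.fst pq
    simp only [Prod.fst_add, Prod.smul_fst] at this
    rw [this, D_add_r, D_smul_r, D_self, zero_add]
    exact Dvd.intro _ rfl
  have ne : D p q ≠ 0 := by
    intro z
    apply hd
    have : r ⨯₃ s = (D p q : ℝ) • (b 0 ⨯₃ b 1) := by
      rw [rp, sq]
      ext i
      fin_cases i <;> simp [emb, cross_apply, D] <;> ring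
    rw [this, z]; simp
  have := Int.le_of_dvd (abs_pos.2 ne) ((dvd_abs _ _).2 dv)
  omega

open MvPolynomial in
theorem main : ∃ N : ℕ, ∀ (R : Set (Fin 3 → ℝ)) (d : Fin 3 → ℝ), IsAffineTits R d →
    IsIrred R d → IsCryst R d → ∃ S : Finset (Fin 3 → ℝ), S.card ≤ N ∧
      (∀ v ∈ S, v ≠ 0 ∧ d ⬝ᵥ v = 0) ∧ (∀ r ∈ R, ∃ v ∈ S, r ⬝ᵥ v = 0) ∧
      ∃ Q : MvPolynomial (Fin 3) ℝ, Q ≠ 0 ∧ Q.IsHomogeneous S.card ∧
        ∀ r ∈ R, MvPolynomial.eval r Q = 0 := by
  classical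
  obtain ⟨Q, Q0, hQ⟩ := classes
  have : NeZero Q := ⟨Q0.ne'⟩
  refine ⟨Fintype.card (Fin 3 → ZMod Q), fun R d h hi hc => ?_⟩
  obtain ⟨k, hk⟩ := hQ R d h hi hc
  have ex : ∀ c : Fin 3 → ZMod Q, ∃ r, (∃ s ∈ R, k s = c) → r ∈ R ∧ k r = c := by
    intro c
    by_cases e : ∃ s ∈ R, k s = c
    · obtain ⟨s, hs⟩ := e
      exact ⟨s, fun _ => hs⟩
    · exact ⟨0, fun e' => absurd e' e⟩
  choose rep hrep using ex
  set S := (Finset.univ.filter fun c => ∃ s ∈ R, k s = c).image fun c => rep c ⨯₃ d with hS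
  have h1 : ∀ v ∈ S, v ≠ 0 ∧ d ⬝ᵥ v = 0 := by
    intro v hv
    obtain ⟨c, hc, rfl⟩ := Finset.mem_image.1 hv
    have hr := (hrep c (Finset.mem_filter.1 hc).2).1
    refine ⟨fun e => ?_, dot_cross_self _ _⟩
    obtain ⟨x, x1, x2⟩ := h.meets _ hr
    have id : x ⨯₃ (rep c ⨯₃ d) = (d ⬝ᵥ x) • rep c - (rep c ⬝ᵥ x) • d := by
      ext i
      fin_cases i <;> simp [cross_apply, dotProduct, Fin.sum_univ_three] <;> ring
    rw [e, x2, zero_smul, sub_zero, map_zero] at id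
    exact h.nz hr ((smul_eq_zero.1 id.symm).resolve_left x1.ne')
  have h2 : ∀ r ∈ R, ∃ v ∈ S, r ⬝ᵥ v = 0 := by
    intro r hr
    have e : ∃ s ∈ R, k s = k r := ⟨r, hr, rfl⟩
    refine ⟨rep (k r) ⨯₃ d, Finset.mem_image.2 ⟨k r, Finset.mem_filter.2
      ⟨Finset.mem_univ _, e⟩, rfl⟩, ?_⟩
    rw [triple_product_permutation, triple_product_permutation]
    exact hk r hr _ (hrep _ e).1 (hrep _ e).2.symm
  have ev : ∀ r v : Fin 3 → ℝ, eval r (∑ i, C (v i) * X i : MvPolynomial (Fin 3) ℝ) = r ⬝ᵥ v := by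
    intro r v
    simp [dotProduct, mul_comm]
  refine ⟨S, Finset.card_image_le.trans (Finset.card_filter_le _ _), h1, h2,
    ∏ v ∈ S, ∑ i, C (v i) * X i, ?_, ?_, ?_⟩
  · refine Finset.prod_ne_zero_iff.2 fun v hv e => (h1 v hv).1 ?_
    have := ev v v
    rw [e, map_zero] at this
    exact dotProduct_self_eq_zero.1 this.symm
  · have := IsHomogeneous.prod S (fun v => (∑ i, C (v i) * X i : MvPolynomial (Fin 3) ℝ))
      (fun _ => 1) (fun v _ => IsHomogeneous.sum _ _ _ fun i _ => isHomogeneous_C_mul_X _ _)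
    simpa using this
  · intro r hr
    obtain ⟨v, hv, e⟩ := h2 r hr
    rw [map_prod]
    exact Finset.prod_eq_zero hv (by rw [ev, e])

end Pool.Agent.MP_ad1a12_co

end
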